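import Pool.Agent.TH912.LG.Sym
import Pool.Agent.TH912.LS.UpperLog

set_option autoImplicit false

/-! Moves inside one ball of radius `O(log n / ε)` and the number of violated constraints as
potential: value `1 - ε` on every satisfiable game. -/

namespace Pool.Agent.TH912.LG

open Finset
open Pool.Agent.TH912.LS (ball mem_ball ball_self ball_symm ball_trans ball_mono ball_adj gb gb_sub
  gb_mono gb_ball gb_adj v_mem_gb)

/-- the constraints from `v` that are violated -/
def viol {Q V : Type} (X : Game Q V) (σ : V → Q) (v : V) : Set V :=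
  {w | ∃ π, X.con v w = some π ∧ π (σ v) ≠ σ w}

theorem viol_ball {Q V : Type} {X : Game Q V} {σ : V → Q} {v w : V} (h : w ∈ viol X σ v) :
    w ∈ ball X.gr v 1 := by
  obtain ⟨π, hπ, _⟩ := h
  by_cases hvw : v = w
  · subst hvw
    exact ball_self _ _ _
  · exact ball_adj ⟨hvw, Or.inl (by rw [hπ]; simp)⟩

/-- The potential that counts the violated constraints: the states are the labels, and a vertex pays
the number of violated constraints that start at it. -/
noncomputable def violCost (Q : Type) : LocalCost Q Q 1 where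
  cost := fun {_} X σ v => ((viol X σ v).ncard : ℝ)
  invariant := by
    rintro V V' X σ v X' σ' v' ⟨e, h1, _, h3, h4⟩
    have e0 : (e ⟨v, ball_self _ v 1⟩ : V') = v' := (h1 ⟨v, ball_self _ v 1⟩).mp rfl
    have s0 : σ v = σ' v' := by
      have := h4 ⟨v, ball_self _ v 1⟩
      rwa [e0] at this
    have key : (viol X σ v).ncard = (viol X' σ' v').ncard := by
      refine Set.ncard_congr (fun w hw => (e ⟨w, viol_ball hw⟩ : V')) ?_ ?_ ?_
      · rintro w hw
        obtain ⟨π, hπ, hne⟩ := id hw
        refine ⟨π, ?_, ?_⟩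
        · have := h3 ⟨v, ball_self _ v 1⟩ ⟨w, viol_ball hw⟩
          rw [e0] at this
          rw [← this]
          exact hπ
        · rw [← s0, ← h4 ⟨w, viol_ball hw⟩]
          exact hne
      · intro a b ha hb hab
        have := e.injective (Subtype.ext hab)
        exact congrArg Subtype.val this
      · rintro w' hw'
        obtain ⟨⟨w, hw⟩, hwe⟩ := e.surjective ⟨w', viol_ball hw'⟩
        have hwe' : (e ⟨w, hw⟩ : V') = w' := congrArg Subtype.val hwe
        have hwv : w ∈ viol X σ v := by
          obtain ⟨π, hπ, hne⟩ := hw'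
          refine ⟨π, ?_, ?_⟩
          · have := h3 ⟨v, ball_self _ v 1⟩ ⟨w, hw⟩
            rw [e0, hwe'] at this
            exact this.trans hπ
          · have := h4 ⟨w, hw⟩
            rw [hwe'] at this
            show π (σ v) ≠ σ w
            rw [s0, this]
            exact hne
        exact ⟨w, hwv, hwe'⟩
    rw [key]

section

variable {Q V : Type} [Fintype V]

open Classical in
/-- the set of violated constraints -/
noncomputable def VS (X : Game Q V) (σ : V → Q) : Finset (V × V) :=
  univ.filter fun e => ∃ π, X.con e.1 e.2 = some π ∧ π (σ e.1) ≠ σ e.2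

open Classical in
/-- the set of constraints -/
noncomputable def CS (X : Game Q V) : Finset (V × V) :=
  univ.filter fun e => X.con e.1 e.2 ≠ none

theorem violCost_total (X : Game Q V) (σ : V → Q) :
    (violCost Q).total X σ = ((VS X σ).card : ℝ) := by
  classical
  unfold LocalCost.total violCost VS
  simp only
  rw [card_filter, ← univ_product_univ, sum_product]
  push_cast
  refine sum_congr rfl fun v _ => ?_
  have h1 : viol X σ v = ((univ.filter fun w => ∃ π, X.con v w = some π ∧ π (σ v) ≠ σ w :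
      Finset V) : Set V) := by
    ext w
    simp [viol]
  rw [h1, Set.ncard_coe_finset, card_filter]
  push_cast
  rfl

theorem numCon_eq (X : Game Q V) : numCon X = (CS X).card := by
  classical
  unfold numCon CS
  rw [← Set.ncard_coe_finset]
  congr 1
  ext e
  simp

theorem numSat_eq (X : Game Q V) (σ : V → Q) : numSat X σ + (VS X σ).card = numCon X := by
  classical
  rw [numCon_eq]
  have h1 : numSat X σ = ((CS X).filter fun e => ¬ ∃ π, X.con e.1 e.2 = some π ∧
      π (σ e.1) ≠ σ e.2).card := by
    unfold numSat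
    rw [← Set.ncard_coe_finset]
    congr 1
    ext e
    simp only [Set.mem_ofPred_eq, coe_filter, CS, mem_filter, mem_univ, true_and]
    constructor
    · rintro ⟨π, h1, h2⟩
      refine ⟨by rw [h1]; simp, ?_⟩
      rintro ⟨π', h3, h4⟩
      rw [h1] at h3
      cases h3
      exact h4 h2
    · rintro ⟨h1, h2⟩
      obtain ⟨π, hπ⟩ := Option.ne_none_iff_exists'.mp h1
      refine ⟨π, hπ, ?_⟩
      by_contra h3
      exact h2 ⟨π, hπ, h3⟩
  have h2 : (VS X σ).card = ((CS X).filter fun e => ∃ π, X.con e.1 e.2 = some π ∧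
      π (σ e.1) ≠ σ e.2).card := by
    congr 1
    ext e
    simp only [VS, CS, mem_filter, mem_univ, true_and]
    constructor
    · rintro ⟨π, h1, h2⟩
      exact ⟨by rw [h1]; simp, π, h1, h2⟩
    · rintro ⟨_, h⟩
      exact h
  rw [h1, h2, add_comm]
  exact card_filter_add_card_filter_not _

section clusters

variable [DecidableEq V] (X : Game Q V) [DecidableRel X.gr.Adj]

/-- the constraints inside a set -/
noncomputable def ins (B : Finset V) : Finset (V × V) := (CS X).filter fun e => e.1 ∈ B ∧ e.2 ∈ B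

omit [DecidableRel X.gr.Adj] in
theorem mem_CS {e : V × V} : e ∈ CS X ↔ X.con e.1 e.2 ≠ none := by
  simp [CS]

/-- a constraint with one end in a ball has both ends in the next ball -/
theorem ins_next (W : Finset V) (v : V) (n : ℕ) {e : V × V} (he : e ∈ CS X) (h1 : e.1 ∈ W)
    (h2 : e.2 ∈ W) (h : e.1 ∈ gb X.gr W v n ∨ e.2 ∈ gb X.gr W v n) :
    e ∈ ins X (gb X.gr W v (n + 1)) := by
  rw [mem_CS] at he
  refine mem_filter.mpr ⟨(mem_CS X).mpr he, ?_⟩
  by_cases hee : e.1 = e.2
  · rw [← hee] at h ⊢
    have : e.1 ∈ gb X.gr W v n := by rcases h with h | h <;> exact h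
    exact ⟨gb_mono X.gr W v n this, gb_mono X.gr W v n this⟩
  · have hadj : X.gr.Adj e.1 e.2 := ⟨hee, Or.inl he⟩
    rcases h with h | h
    · exact ⟨gb_mono X.gr W v n h, gb_adj X.gr W v n e.1 e.2 h h2 hadj⟩
    · exact ⟨gb_adj X.gr W v n e.2 e.1 h h1 hadj.symm, gb_mono X.gr W v n h⟩

theorem growE (W : Finset V) (v : V) (hv : v ∈ W) (ε : ℝ) (hε : 0 < ε) (N : ℕ)
    (hN : ((CS X).card : ℝ) ≤ (1 + ε) ^ N) (hN1 : 1 ≤ N) :
    ∃ K : Finset V, v ∈ K ∧ K ⊆ W ∧ (∀ x ∈ K, x ∈ ball X.gr v N) ∧
      (((CS X).filter fun e => e.1 ∈ W ∧ e.2 ∈ W ∧ ¬ (e.1 ∈ K ↔ e.2 ∈ K)).card : ℝ) ≤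
        ε * (ins X K).card := by
  by_cases h1 : (ins X (gb X.gr W v 1)).card = 0
  · refine ⟨gb X.gr W v 0, v_mem_gb X.gr W v 0, gb_sub X.gr W v hv 0, ?_, ?_⟩
    · intro x hx
      exact ball_mono (gb_ball X.gr W v 0 x hx) (by omega)
    · have h2 : ((CS X).filter fun e => e.1 ∈ W ∧ e.2 ∈ W ∧
          ¬ (e.1 ∈ gb X.gr W v 0 ↔ e.2 ∈ gb X.gr W v 0)) = ∅ := by
        rw [filter_eq_empty_iff]
        rintro e he ⟨h3, h4, h5⟩
        have h6 : e.1 ∈ gb X.gr W v 0 ∨ e.2 ∈ gb X.gr W v 0 := by tauto
        have h7 := ins_next X W v 0 he h3 h4 h6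
        rw [card_eq_zero] at h1
        rw [zero_add, h1] at h7
        exact absurd h7 (notMem_empty _)
      rw [h2]
      simp only [card_empty, Nat.cast_zero]
      positivity
  · obtain ⟨i, hi1, hi, hle⟩ : ∃ i, 1 ≤ i ∧ i ≤ N ∧ ((ins X (gb X.gr W v (i + 1))).card : ℝ) ≤
        (1 + ε) * (ins X (gb X.gr W v i)).card := by
      by_contra hcon
      push Not at hcon
      have h2 : ∀ i ≤ N, (1 + ε) ^ i ≤ ((ins X (gb X.gr W v (i + 1))).card : ℝ) ∧
          (1 ≤ i → (1 + ε) ^ i < ((ins X (gb X.gr W v (i + 1))).card : ℝ)) := by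
        intro i
        induction i with
        | zero =>
          intro _
          refine ⟨?_, fun h => absurd h (by omega)⟩
          rw [pow_zero]
          have : 1 ≤ (ins X (gb X.gr W v (0 + 1))).card := Nat.pos_of_ne_zero h1
          exact_mod_cast this
        | succ i ih =>
          intro hi
          have h2 := hcon (i + 1) (by omega) hi
          have h3 := (ih (by omega)).1
          have h4 : (1 + ε) ^ (i + 1) < ((ins X (gb X.gr W v (i + 1 + 1))).card : ℝ) := by
            refine lt_of_le_of_lt ?_ h2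
            rw [pow_succ, mul_comm]
            gcongr
          exact ⟨h4.le, fun _ => h4⟩
      have h3 := (h2 N le_rfl).2 hN1
      have h4 : ((ins X (gb X.gr W v (N + 1))).card : ℝ) ≤ (CS X).card := by
        exact_mod_cast card_le_card (filter_subset _ _)
      linarith
    refine ⟨gb X.gr W v i, v_mem_gb X.gr W v i, gb_sub X.gr W v hv i, ?_, ?_⟩
    · intro x hx
      exact ball_mono (gb_ball X.gr W v i x hx) hi
    · have h2 : ((CS X).filter fun e => e.1 ∈ W ∧ e.2 ∈ W ∧
          ¬ (e.1 ∈ gb X.gr W v i ↔ e.2 ∈ gb X.gr W v i)) ⊆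
          ins X (gb X.gr W v (i + 1)) \ ins X (gb X.gr W v i) := by
        intro e he
        obtain ⟨he, h3, h4, h5⟩ := mem_filter.mp he
        have h6 : e.1 ∈ gb X.gr W v i ∨ e.2 ∈ gb X.gr W v i := by tauto
        refine mem_sdiff.mpr ⟨ins_next X W v i he h3 h4 h6, fun h7 => ?_⟩
        obtain ⟨_, h8, h9⟩ := mem_filter.mp h7
        exact h5 ⟨fun _ => h9, fun _ => h8⟩
      have hsub : ins X (gb X.gr W v i) ⊆ ins X (gb X.gr W v (i + 1)) := by
        intro e he
        obtain ⟨he, h8, h9⟩ := mem_filter.mp he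
        exact mem_filter.mpr ⟨he, gb_mono X.gr W v i h8, gb_mono X.gr W v i h9⟩
      have h3 := card_le_card h2
      have h4 : (ins X (gb X.gr W v (i + 1)) \ ins X (gb X.gr W v i)).card +
          (ins X (gb X.gr W v i)).card = (ins X (gb X.gr W v (i + 1))).card :=
        card_sdiff_add_card_eq_card hsub
      have h5 : (((CS X).filter fun e => e.1 ∈ W ∧ e.2 ∈ W ∧
          ¬ (e.1 ∈ gb X.gr W v i ↔ e.2 ∈ gb X.gr W v i)).card : ℝ) +
          (ins X (gb X.gr W v i)).card ≤ (ins X (gb X.gr W v (i + 1))).card := by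
        exact_mod_cast (by omega)
      linarith

theorem clustersE (ε : ℝ) (hε : 0 < ε) (N : ℕ)
    (hN : ((CS X).card : ℝ) ≤ (1 + ε) ^ N) (hN1 : 1 ≤ N) :
    ∀ W : Finset V, ∃ cl : V → V, (∀ x ∈ W, x ∈ ball X.gr (cl x) N) ∧
      (((CS X).filter fun e => e.1 ∈ W ∧ e.2 ∈ W ∧ cl e.1 ≠ cl e.2).card : ℝ) ≤
        ε * (ins X W).card := by
  intro W
  induction W using Finset.strongInduction with
  | H W ih =>
    by_cases hW : W.Nonempty
    · obtain ⟨v, hvW⟩ := hW
      obtain ⟨K, hvK, hKW, hball, hcut⟩ := growE X W v hvW ε hε N hN hN1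
      have hlt : W \ K ⊂ W := by
        rw [Finset.ssubset_iff_subset_ne]
        refine ⟨sdiff_subset, fun h => ?_⟩
        rw [← h] at hvW
        exact (mem_sdiff.mp hvW).2 hvK
      obtain ⟨cl', h3, h4⟩ := ih (W \ K) hlt
      refine ⟨fun x => if x ∈ K then v else cl' x, ?_, ?_⟩
      · intro x hx
        by_cases hxK : x ∈ K
        · simp only [if_pos hxK]
          exact hball x hxK
        · simp only [if_neg hxK]
          exact h3 x (mem_sdiff.mpr ⟨hx, hxK⟩)
      · have h5 : ((CS X).filter fun e => e.1 ∈ W ∧ e.2 ∈ W ∧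
            (if e.1 ∈ K then v else cl' e.1) ≠ (if e.2 ∈ K then v else cl' e.2)) ⊆
            ((CS X).filter fun e => e.1 ∈ W ∧ e.2 ∈ W ∧ ¬ (e.1 ∈ K ↔ e.2 ∈ K)) ∪
            ((CS X).filter fun e => e.1 ∈ W \ K ∧ e.2 ∈ W \ K ∧ cl' e.1 ≠ cl' e.2) := by
          intro e he
          obtain ⟨he, h5, h6, h7⟩ := mem_filter.mp he
          by_cases a : e.1 ∈ K <;> by_cases b : e.2 ∈ K
          · rw [if_pos a, if_pos b] at h7
            exact absurd rfl h7
          · exact mem_union_left _ (mem_filter.mpr ⟨he, h5, h6, fun h => b (h.mp a)⟩)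
          · exact mem_union_left _ (mem_filter.mpr ⟨he, h5, h6, fun h => a (h.mpr b)⟩)
          · rw [if_neg a, if_neg b] at h7
            exact mem_union_right _ (mem_filter.mpr ⟨he, mem_sdiff.mpr ⟨h5, a⟩,
              mem_sdiff.mpr ⟨h6, b⟩, h7⟩)
        have h6 : (ins X K).card + (ins X (W \ K)).card ≤ (ins X W).card := by
          rw [← card_union_of_disjoint]
          · apply card_le_card
            intro e he
            rcases mem_union.mp he with he | he
            · obtain ⟨he, a, b⟩ := mem_filter.mp he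
              exact mem_filter.mpr ⟨he, hKW a, hKW b⟩
            · obtain ⟨he, a, b⟩ := mem_filter.mp he
              exact mem_filter.mpr ⟨he, (mem_sdiff.mp a).1, (mem_sdiff.mp b).1⟩
          · rw [disjoint_left]
            intro e he he'
            exact (mem_sdiff.mp (mem_filter.mp he').2.1).2 (mem_filter.mp he).2.1
        have h7 := (card_le_card h5).trans (card_union_le _ _)
        have h8 : (((CS X).filter fun e => e.1 ∈ W ∧ e.2 ∈ W ∧
            (if e.1 ∈ K then v else cl' e.1) ≠ (if e.2 ∈ K then v else cl' e.2)).card : ℝ) ≤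
            (((CS X).filter fun e => e.1 ∈ W ∧ e.2 ∈ W ∧ ¬ (e.1 ∈ K ↔ e.2 ∈ K)).card : ℝ) +
            (((CS X).filter fun e => e.1 ∈ W \ K ∧ e.2 ∈ W \ K ∧ cl' e.1 ≠ cl' e.2).card : ℝ) := by
          exact_mod_cast h7
        have h9 : ((ins X K).card : ℝ) + (ins X (W \ K)).card ≤ (ins X W).card := by
          exact_mod_cast h6
        nlinarith
    · rw [not_nonempty_iff_eq_empty] at hW
      subst hW
      refine ⟨id, by simp, ?_⟩
      simp only [notMem_empty, false_and, filter_false, card_empty, Nat.cast_zero]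
      positivity

end clusters

open Classical in
theorem upper (X : Game Q V) (hX : Satisfiable X) (σ : V → Q) (ε : ℝ) (hε : 0 < ε)
    (N t : ℕ) (hN : ((CS X).card : ℝ) ≤ (1 + ε) ^ N) (hN1 : 1 ≤ N) (ht : N ≤ t)
    (hσ : ∀ σ', ¬ Step (violCost Q) 1 t X σ σ') :
    ((VS X σ).card : ℝ) ≤ 3 * ε * numCon X := by
  obtain ⟨L, hL⟩ := hX
  obtain ⟨cl, h1, h2⟩ := clustersE X ε hε N hN hN1 univ
  have h3 : ins X univ = CS X := by
    ext e
    simp [ins]
  rw [h3] at h2
  simp only [mem_univ, true_and] at h2
  set cut : Finset (V × V) := (CS X).filter fun e => cl e.1 ≠ cl e.2 with hcut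
  have key : ∀ c : V, ((VS X σ).filter fun e => cl e.1 = c ∧ cl e.2 = c).card ≤
      (cut.filter fun e => cl e.1 = c).card + (cut.filter fun e => cl e.2 = c).card := by
    intro c
    let σ' : V → Q := fun x => if cl x = c then L x else σ x
    have hle : (violCost Q).total X σ ≤ (violCost Q).total X σ' := by
      by_contra hlt
      push Not at hlt
      refine hσ σ' ⟨⟨{c}, by simp, ?_⟩, hlt⟩
      intro v hv
      refine ⟨c, by simp, ?_⟩
      have hvc : cl v = c := by
        by_contra h
        exact hv (if_neg h)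
      have h4 := h1 v (mem_univ _)
      rw [hvc] at h4
      exact ball_mono h4 ht
    rw [violCost_total, violCost_total] at hle
    have hle' : (VS X σ).card ≤ (VS X σ').card := by exact_mod_cast hle
    have h4 : VS X σ' ⊆ ((VS X σ).filter fun e => cl e.1 ≠ c ∧ cl e.2 ≠ c) ∪
        ((cut.filter fun e => cl e.1 = c) ∪ (cut.filter fun e => cl e.2 = c)) := by
      intro e he
      obtain ⟨π, hπ, hne⟩ := (mem_filter.mp he).2
      have heC : e ∈ CS X := (mem_CS X).mpr (by rw [hπ]; simp)
      by_cases a : cl e.1 = c <;> by_cases b : cl e.2 = c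
      · exfalso
        apply hne
        simp only [σ', if_pos a, if_pos b]
        exact hL _ _ _ hπ
      · refine mem_union_right _ (mem_union_left _ (mem_filter.mpr ⟨?_, a⟩))
        refine mem_filter.mpr ⟨heC, ?_⟩
        rw [a]
        exact Ne.symm b
      · refine mem_union_right _ (mem_union_right _ (mem_filter.mpr ⟨?_, b⟩))
        refine mem_filter.mpr ⟨heC, ?_⟩
        rw [b]
        exact a
      · refine mem_union_left _ (mem_filter.mpr ⟨?_, a, b⟩)
        refine mem_filter.mpr ⟨mem_univ _, π, hπ, ?_⟩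
        simp only [σ', if_neg a, if_neg b] at hne
        exact hne
    have h5 := (card_le_card h4).trans ((card_union_le _ _).trans
      (Nat.add_le_add_left (card_union_le _ _) _))
    have h6 : ((VS X σ).filter fun e => cl e.1 = c ∧ cl e.2 = c).card +
        ((VS X σ).filter fun e => cl e.1 ≠ c ∧ cl e.2 ≠ c).card ≤ (VS X σ).card := by
      rw [← card_union_of_disjoint]
      · exact card_le_card (union_subset (filter_subset _ _) (filter_subset _ _))
      · rw [disjoint_left]
        intro e he he'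
        exact (mem_filter.mp he').2.1 (mem_filter.mp he).2.1
    omega
  have hsum : ((VS X σ).filter fun e => cl e.1 = cl e.2).card ≤ 2 * cut.card := by
    have e1 : ((VS X σ).filter fun e => cl e.1 = cl e.2).card =
        ∑ c : V, ((VS X σ).filter fun e => cl e.1 = c ∧ cl e.2 = c).card := by
      rw [card_eq_sum_card_fiberwise (f := fun e : V × V => cl e.1) (t := univ) (fun x _ => mem_univ _)]
      refine sum_congr rfl fun c _ => ?_
      rw [filter_filter]
      congr 1
      apply filter_congr
      intro e _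
      constructor
      · rintro ⟨a, b⟩
        exact ⟨b, by rw [← a, b]⟩
      · rintro ⟨a, b⟩
        exact ⟨by rw [a, b], a⟩
    have e2 : cut.card = ∑ c : V, (cut.filter fun e => cl e.1 = c).card :=
      card_eq_sum_card_fiberwise (f := fun e : V × V => cl e.1) (t := univ) (fun x _ => mem_univ _)
    have e3 : cut.card = ∑ c : V, (cut.filter fun e => cl e.2 = c).card :=
      card_eq_sum_card_fiberwise (f := fun e : V × V => cl e.2) (t := univ) (fun x _ => mem_univ _)
    calc ((VS X σ).filter fun e => cl e.1 = cl e.2).card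
        = ∑ c : V, ((VS X σ).filter fun e => cl e.1 = c ∧ cl e.2 = c).card := e1
      _ ≤ ∑ c : V, ((cut.filter fun e => cl e.1 = c).card +
            (cut.filter fun e => cl e.2 = c).card) := sum_le_sum fun c _ => key c
      _ = cut.card + cut.card := by rw [sum_add_distrib, ← e2, ← e3]
      _ = 2 * cut.card := by ring
  have hrest : ((VS X σ).filter fun e => ¬ cl e.1 = cl e.2).card ≤ cut.card := by
    apply card_le_card
    intro e he
    obtain ⟨he, hne⟩ := mem_filter.mp he
    obtain ⟨π, hπ, _⟩ := (mem_filter.mp he).2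
    exact mem_filter.mpr ⟨(mem_CS X).mpr (by rw [hπ]; simp), hne⟩
  have hall := card_filter_add_card_filter_not (s := VS X σ) (fun e : V × V => cl e.1 = cl e.2)
  have hfin : (VS X σ).card ≤ 3 * cut.card := by omega
  have hfinR : ((VS X σ).card : ℝ) ≤ 3 * cut.card := by exact_mod_cast hfin
  rw [numCon_eq]
  have h2' : (cut.card : ℝ) ≤ ε * (CS X).card := h2
  linarith

end

end Pool.Agent.TH912.LG
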