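import Pool.Agent.TH912.LS.Base2

set_option autoImplicit false

/-! Graphs of bounded degree with many edges and without short cycles. -/

namespace Pool.Agent.TH912.LG

open Finset Pool.Agent.W179.Erdos Pool.Agent.TH912.LS

open Classical in
/-- the base graphs -/
theorem base_cyc (k g : ℕ) (hk : 1 ≤ k) : ∃ (U : Type) (_ : Fintype U) (G : SimpleGraph U),
    g ≤ 2 * Fintype.card U ∧
    (Fintype.card U : ℝ) ≤ (2 * k * (8 * k + 1) : ℝ) ^ (2 * g + 5) ∧
    (∀ u, (G.neighborSet u).ncard ≤ 32 * (2 * k * (8 * k + 1))) ∧
    (∀ l φ, FCyc G l φ → g < l) ∧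
    ∀ A : Set U, G.IsIndepSet A → k * A.ncard ≤ 2 * Fintype.card U := by
  obtain ⟨n, s, M, _, f, hs, hn, hgs, hnb, hX, hE, hI⟩ := main_count' k g hk
  let G : SimpleGraph (Fin n) :=
    { Adj := fun u v => u ≠ v ∧ f s(u, v) = 0
      symm := ⟨fun u v h => ⟨h.1.symm, by rw [Sym2.eq_swap]; exact h.2⟩⟩
      loopless := ⟨fun u h => h.1 rfl⟩ }
  set D : ℕ := 2 * k * (8 * k + 1) with hD
  -- vertices of large degree
  let Hi : Finset (Fin n) := univ.filter fun v => 32 * D < G.degree v
  have hHi : 2 * Hi.card ≤ k * s := by
    have h1 : ∑ v, G.degree v = 2 * G.edgeFinset.card := G.sum_degrees_eq_twice_card_edges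
    have h2 : G.edgeFinset.card ≤ (univ.filter fun e : Sym2 (Fin n) => f e = 0).card := by
      apply card_le_card
      intro e he
      rw [SimpleGraph.mem_edgeFinset] at he
      induction e using Sym2.ind with
      | _ a b =>
        have : G.Adj a b := he
        exact mem_filter.mpr ⟨mem_univ _, this.2⟩
    have h3 : Hi.card * (32 * D) ≤ ∑ v, G.degree v := by
      calc Hi.card * (32 * D) = ∑ v ∈ Hi, 32 * D := by rw [sum_const, smul_eq_mul]
        _ ≤ ∑ v ∈ Hi, G.degree v := sum_le_sum fun v hv => ((mem_filter.mp hv).2).le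
        _ ≤ ∑ v, G.degree v :=
            sum_le_sum_of_subset_of_nonneg (filter_subset _ _) fun _ _ _ => Nat.zero_le _
    have h4 : (univ.filter fun e : Sym2 (Fin n) => f e = 0).card ≤ 4 * D * n := by
      have : ((univ.filter fun e : Sym2 (Fin n) => f e = 0).card : ℝ) ≤ ((4 * D * n : ℕ) : ℝ) := by
        push_cast
        rw [hD]
        push_cast
        exact hE
      exact_mod_cast this
    have hDpos : 0 < D := by rw [hD]; positivity
    have h5 : Hi.card * (32 * D) ≤ 2 * (4 * D * n) := by omega
    have h6 : D * (4 * Hi.card) ≤ D * n := by nlinarith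
    have h7 := Nat.le_of_mul_le_mul_left h6 hDpos
    have h8 : n = 2 * (k * s) := by rw [hn]; ring
    omega
  let B : Finset (Fin n) := (X g f).image fun p => p.2 0
  have hB : B.card < k * s := lt_of_le_of_lt card_image_le hX
  let U : Finset (Fin n) := (B ∪ Hi)ᶜ
  have hU : k * s ≤ 2 * U.card := by
    show k * s ≤ 2 * ((B ∪ Hi)ᶜ).card
    rw [card_compl, Fintype.card_fin]
    have h1 := card_union_le B Hi
    have : n = k * s + k * s := by rw [hn]; ring
    omega
  have hcard : Fintype.card {v // v ∈ U} = U.card := Fintype.card_coe U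
  refine ⟨{v // v ∈ U}, inferInstance, G.induce (fun v => v ∈ U), ?_, ?_, ?_, ?_, ?_⟩
  · rw [hcard]
    nlinarith
  · rw [hcard]
    refine le_trans ?_ hnb
    have h1 := card_le_univ U
    rw [Fintype.card_fin] at h1
    exact_mod_cast h1
  · intro u
    have hu : (u : Fin n) ∉ Hi := by
      have := u.2
      simp only [U, mem_compl, mem_union, not_or] at this
      exact this.2
    have hdeg : G.degree u ≤ 32 * D := by
      by_contra h
      push Not at h
      exact hu (mem_filter.mpr ⟨mem_univ _, h⟩)
    refine le_trans ?_ hdeg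
    rw [← SimpleGraph.card_neighborFinset_eq_degree, ← Set.ncard_coe_finset,
      SimpleGraph.coe_neighborFinset]
    refine Set.ncard_le_ncard_of_injOn (fun x => (x : Fin n)) ?_ ?_ (Set.toFinite _)
    · intro x hx
      exact hx
    · intro x _ y _ hxy
      exact Subtype.ext hxy
  · intro l φ h
    by_contra hl
    push Not at hl
    have h3 := h.three
    obtain ⟨m, rfl⟩ : ∃ m, l = m + 3 := ⟨l - 3, by omega⟩
    have hm : m < g := by omega
    let v : Fin (m + 3) → Fin n := fun t => (φ t.val).val
    have hv : Function.Injective v := by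
      intro a b hab
      have := h.inj a.val a.isLt b.val b.isLt (Subtype.ext hab)
      exact Fin.ext this
    have hz : ∀ e ∈ cedges v, f e ∈ ({0} : Finset (Fin M)) := by
      intro e he
      unfold cedges at he
      obtain ⟨t, -, rfl⟩ := mem_image.mp he
      rw [mem_singleton]
      by_cases ht : t.val + 1 < m + 3
      · have h5 : (t + 1 : Fin (m + 3)).val = t.val + 1 := by
          rw [Fin.val_add, Fin.val_one, Nat.mod_eq_of_lt ht]
        have h4 := (h.adj t.val ht)
        have h6 : v (t + 1) = (φ (t.val + 1)).val := by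
          show (φ (t + 1 : Fin (m + 3)).val).val = _
          rw [h5]
        rw [h6]
        exact h4.2
      · have h7 : t.val = m + 3 - 1 := by
          have := t.isLt
          omega
        have h5 : (t + 1 : Fin (m + 3)).val = 0 := by
          rw [Fin.val_add, Fin.val_one, h7]
          have : m + 3 - 1 + 1 = m + 3 := by omega
          rw [this, Nat.mod_self]
        have h4 := h.close
        have h6 : v (t + 1) = (φ 0).val := by
          show (φ (t + 1 : Fin (m + 3)).val).val = _
          rw [h5]
        have h8 : v t = (φ (m + 3 - 1)).val := by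
          show (φ t.val).val = _
          rw [h7]
        rw [h6, h8]
        exact h4.2
    have hmem : (⟨⟨m, hm⟩, v⟩ : Σ m : Fin g, (Fin (m.val + 3) → Fin n)) ∈ X g f := by
      unfold X
      rw [mem_filter]
      exact ⟨mem_univ _, hv, hz⟩
    have hB0 : v 0 ∈ B := mem_image_of_mem (fun p : Σ m : Fin g, (Fin (m.val + 3) → Fin n) =>
      p.2 0) hmem
    have hU0 := (φ 0).2
    simp only [U, mem_compl, mem_union, not_or] at hU0
    exact hU0.1 hB0
  · intro A hA
    by_contra hcon
    push Not at hcon
    have hsA : s ≤ A.ncard := by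
      by_contra h
      push Not at h
      rw [hcard] at hcon
      have h1 : k * A.ncard < k * s := by
        exact Nat.mul_lt_mul_of_pos_left h (by omega)
      omega
    obtain ⟨T, hTA, hT⟩ := Set.exists_subset_card_eq hsA
    let S : Finset (Fin n) := (T.toFinset).map (Function.Embedding.subtype _)
    have hS : S.card = s := by
      rw [card_map, ← Set.ncard_eq_toFinset_card', hT]
    obtain ⟨e, he, h0⟩ := hI S hS
    obtain ⟨a, ha, b, hb, hab, rfl⟩ := pairs_sub S e he
    obtain ⟨a', ha', rfl⟩ := mem_map.mp ha
    obtain ⟨b', hb', rfl⟩ := mem_map.mp hb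
    rw [Set.mem_toFinset] at ha' hb'
    have hadj : (G.induce (fun v => v ∈ U)).Adj a' b' := ⟨hab, h0⟩
    exact hA (hTA ha') (hTA hb') (fun h => hab (by rw [h])) hadj


/-- a set of vertices of degree less than `d` contains a large independent set -/
theorem indep_of_lo {U : Type} [Fintype U] [DecidableEq U] (G : SimpleGraph U) [DecidableRel G.Adj]
    (d : ℕ) : ∀ W : Finset U, (∀ v ∈ W, G.degree v < d) →
    ∃ A ⊆ W, G.IsIndepSet (A : Set U) ∧ W.card ≤ d * A.card := by
  intro W
  induction W using Finset.strongInduction with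
  | H W ih =>
    intro hW
    by_cases hne : W.Nonempty
    · obtain ⟨v, hv⟩ := hne
      let W' := W \ (insert v (G.neighborFinset v))
      have hlt : W' ⊂ W := by
        rw [Finset.ssubset_iff_subset_ne]
        refine ⟨sdiff_subset, fun h => ?_⟩
        rw [← h] at hv
        exact (mem_sdiff.mp hv).2 (mem_insert_self _ _)
      obtain ⟨A, hA, hind, hcard⟩ := ih W' hlt fun x hx => hW x (mem_sdiff.mp hx).1
      have hvA : v ∉ A := fun h => (mem_sdiff.mp (hA h)).2 (mem_insert_self _ _)
      have hnot : ∀ x ∈ A, ¬ G.Adj v x := fun x hx hadj =>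
        (mem_sdiff.mp (hA hx)).2 (mem_insert_of_mem ((G.mem_neighborFinset v x).mpr hadj))
      refine ⟨insert v A, ?_, ?_, ?_⟩
      · intro x hx
        rcases mem_insert.mp hx with rfl | hx
        · exact hv
        · exact (mem_sdiff.mp (hA hx)).1
      · intro x hx y hy hxy
        rw [coe_insert] at hx hy
        rcases hx with rfl | hx <;> rcases hy with rfl | hy
        · exact absurd rfl hxy
        · exact hnot y hy
        · exact fun h => hnot x hx h.symm
        · exact hind hx hy hxy
      · rw [card_insert_of_notMem hvA]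
        have h1 : W.card ≤ W'.card + (insert v (G.neighborFinset v)).card := by
          have := card_le_card_sdiff_add_card (s := W) (t := insert v (G.neighborFinset v))
          exact this
        have h2 : (insert v (G.neighborFinset v)).card ≤ d := by
          refine (card_insert_le _ _).trans ?_
          rw [G.card_neighborFinset_eq_degree]
          exact hW v hv
        rw [Nat.mul_add]
        omega
    · rw [not_nonempty_iff_eq_empty] at hne
      subst hne
      exact ⟨∅, by simp, by simp, by simp⟩

open Classical in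
/-- the base graphs, with many edges -/
theorem base_edges (d g : ℕ) (hd : 1 ≤ d) : ∃ (U : Type) (_ : Fintype U) (G : SimpleGraph U),
    g ≤ 2 * Fintype.card U ∧
    (Fintype.card U : ℝ) ≤ (2 * (4 * d : ℕ) * (8 * (4 * d : ℕ) + 1) : ℝ) ^ (2 * g + 5) ∧
    (∀ u, (G.neighborSet u).ncard ≤ 32 * (2 * (4 * d) * (8 * (4 * d) + 1))) ∧
    (∀ l φ, FCyc G l φ → g < l) ∧
    d * Fintype.card U ≤ 2 * (univ.filter fun e : U × U => G.Adj e.1 e.2).card := by
  obtain ⟨U, hU, G, h1, h2, h3, h4, h5⟩ := base_cyc (4 * d) g (by omega)
  refine ⟨U, hU, G, h1, h2, h3, h4, ?_⟩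
  let Lo : Finset U := univ.filter fun v => G.degree v < d
  obtain ⟨A, _, hind, hcard⟩ := indep_of_lo G d Lo fun v hv => (mem_filter.mp hv).2
  have h6 := h5 _ hind
  rw [Set.ncard_coe_finset] at h6
  have h7 : 2 * Lo.card ≤ Fintype.card U := by nlinarith
  have h8 : (univ.filter fun e : U × U => G.Adj e.1 e.2).card = ∑ v, G.degree v := by
    rw [card_filter, ← univ_product_univ, sum_product]
    refine sum_congr rfl fun v _ => ?_
    rw [← G.card_neighborFinset_eq_degree, SimpleGraph.neighborFinset_eq_filter, card_filter]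
  rw [h8]
  have h9 : Lo.card + (univ.filter fun v => ¬ G.degree v < d).card = Fintype.card U := by
    rw [card_filter_add_card_filter_not, card_univ]
  have h10 : (univ.filter fun v => ¬ G.degree v < d).card * d ≤ ∑ v, G.degree v := by
    calc (univ.filter fun v => ¬ G.degree v < d).card * d
        = ∑ v ∈ (univ.filter fun v => ¬ G.degree v < d), d := by rw [sum_const, smul_eq_mul]
      _ ≤ ∑ v ∈ (univ.filter fun v => ¬ G.degree v < d), G.degree v :=
          sum_le_sum fun v hv => not_lt.mp (mem_filter.mp hv).2
      _ ≤ ∑ v, G.degree v :=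
          sum_le_sum_of_subset_of_nonneg (filter_subset _ _) fun _ _ _ => Nat.zero_le _
  have h11 : Fintype.card U ≤ 2 * (univ.filter fun v => ¬ G.degree v < d).card := by omega
  nlinarith

end Pool.Agent.TH912.LG
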