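import Mathlib

set_option autoImplicit false

/-! Random shifts: some choice of the shifts makes every labelling bad. -/

namespace Pool.Agent.TH912.LG

open Finset

theorem count_fix {E P : Type} [Fintype E] [DecidableEq E] [Fintype P] [DecidableEq P]
    (A : Finset E) (t : E → P) :
    (univ.filter fun g : E → P => ∀ e ∈ A, g e = t e).card * Fintype.card P ^ A.card =
      Fintype.card P ^ Fintype.card E := by
  have h1 : (univ.filter fun g : E → P => ∀ e ∈ A, g e = t e) =
      Fintype.piFinset (fun e => if e ∈ A then {t e} else univ) := by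
    ext g
    simp only [mem_filter, mem_univ, true_and, Fintype.mem_piFinset]
    constructor
    · intro h e
      by_cases he : e ∈ A
      · simpa [he] using h e he
      · simp [he]
    · intro h e he
      have := h e
      simpa [he] using this
  rw [h1, Fintype.card_piFinset]
  have h2 : ∀ e, (if e ∈ A then ({t e} : Finset P) else univ).card =
      if e ∈ A then 1 else Fintype.card P := by
    intro e; split_ifs <;> simp
  simp only [h2]
  rw [prod_ite, prod_const, prod_const, one_pow, one_mul, ← pow_add]
  congr 1
  have : (univ.filter fun e => e ∉ A) = Aᶜ := by ext; simp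
  rw [this, card_compl]
  have := card_le_univ A
  omega

/-- If `#Λ 2^M < p^a` then some shift agrees with every one of the `#Λ` targets in fewer than `a`
places of the set `E0` of size `M`. -/
theorem exists_shift {E P Λ : Type} [Fintype E] [DecidableEq E] [Fintype P] [DecidableEq P]
    [Fintype Λ] (E0 : Finset E) (t : Λ → E → P) (a : ℕ)
    (h : Fintype.card Λ * 2 ^ E0.card < Fintype.card P ^ a) (hP : 0 < Fintype.card P) :
    ∃ g : E → P, ∀ l : Λ, (E0.filter fun e => g e = t l e).card < a := by
  classical
  by_contra hcon
  push Not at hcon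
  have hcover : (univ : Finset (E → P)) ⊆
      (univ : Finset Λ).biUnion fun l => (powersetCard a E0).biUnion fun A =>
        univ.filter fun g : E → P => ∀ e ∈ A, g e = t l e := by
    intro g _
    obtain ⟨l, hl⟩ := hcon g
    obtain ⟨A, hA, hAc⟩ := exists_subset_card_eq hl
    rw [mem_biUnion]
    refine ⟨l, mem_univ _, ?_⟩
    rw [mem_biUnion]
    refine ⟨A, mem_powersetCard.mpr ⟨hA.trans (filter_subset _ _), hAc⟩, ?_⟩
    rw [mem_filter]
    exact ⟨mem_univ _, fun e he => (mem_filter.mp (hA he)).2⟩
  have h1 : Fintype.card P ^ Fintype.card E * Fintype.card P ^ a ≤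
      Fintype.card Λ * 2 ^ E0.card * Fintype.card P ^ Fintype.card E := by
    calc Fintype.card P ^ Fintype.card E * Fintype.card P ^ a
        = (univ : Finset (E → P)).card * Fintype.card P ^ a := by
          rw [card_univ, Fintype.card_fun]
      _ ≤ (∑ l : Λ, ∑ A ∈ powersetCard a E0,
            (univ.filter fun g : E → P => ∀ e ∈ A, g e = t l e).card) *
            Fintype.card P ^ a := by
          refine Nat.mul_le_mul_right _ ((card_le_card hcover).trans ?_)
          refine card_biUnion_le.trans (sum_le_sum fun l _ => card_biUnion_le)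
      _ = ∑ l : Λ, ∑ A ∈ powersetCard a E0,
            (univ.filter fun g : E → P => ∀ e ∈ A, g e = t l e).card *
              Fintype.card P ^ a := by
          rw [sum_mul]
          exact sum_congr rfl fun l _ => sum_mul _ _ _
      _ = ∑ l : Λ, ∑ A ∈ powersetCard a E0, Fintype.card P ^ Fintype.card E := by
          refine sum_congr rfl fun l _ => sum_congr rfl fun A hA => ?_
          have := count_fix A (t l)
          rw [(mem_powersetCard.mp hA).2] at this
          exact this
      _ = Fintype.card Λ * (powersetCard a E0).card * Fintype.card P ^ Fintype.card E := by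
          rw [sum_const, sum_const, smul_eq_mul, smul_eq_mul, card_univ]
          ring
      _ ≤ Fintype.card Λ * 2 ^ E0.card * Fintype.card P ^ Fintype.card E := by
          have h2 : (powersetCard a E0).card ≤ 2 ^ E0.card := by
            rw [card_powersetCard]
            exact Nat.choose_le_two_pow _ _
          gcongr
  have h3 : 0 < Fintype.card P ^ Fintype.card E := pow_pos hP _
  have h4 : Fintype.card Λ * 2 ^ E0.card * Fintype.card P ^ Fintype.card E <
      Fintype.card P ^ a * Fintype.card P ^ Fintype.card E := Nat.mul_lt_mul_of_pos_right h h3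
  rw [mul_comm (Fintype.card P ^ a)] at h4
  omega

/-- the numerical condition for the labellings of the base game -/
theorem numeric (k p n M a : ℕ) (hk : 1 ≤ k) (hp : 8 ^ k ≤ p) (hM : 4 * k * n < M)
    (ha : M ≤ k * a) : (2 * p) ^ (2 * n) * 2 ^ M < p ^ a := by
  have hk' : (1 : ℝ) ≤ k := by exact_mod_cast hk
  have hp0 : 0 < p := lt_of_lt_of_le (by positivity) hp
  have hpR : (0 : ℝ) < p := by exact_mod_cast hp0
  have hl2 : 0 < Real.log 2 := Real.log_pos (by norm_num)
  set ℓ : ℝ := Real.log p with hℓ
  have hℓ1 : 3 * k * Real.log 2 ≤ ℓ := by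
    have h1 : ((8 : ℝ) ^ k) ≤ p := by exact_mod_cast hp
    have h2 := Real.log_le_log (by positivity) h1
    rw [Real.log_pow] at h2
    have h3 : Real.log 8 = 3 * Real.log 2 := by
      rw [show (8 : ℝ) = 2 ^ 3 by norm_num, Real.log_pow]; norm_num
    rw [h3] at h2
    linarith
  have hℓ0 : 0 < ℓ := lt_of_lt_of_le (by positivity) hℓ1
  have key : (2 * n) * (Real.log 2 + ℓ) + M * Real.log 2 < a * ℓ := by
    have h1 : (M : ℝ) ≤ k * a := by exact_mod_cast ha
    have h2 : 4 * k * n < (M : ℝ) := by exact_mod_cast hM
    have h3 : Real.log 2 ≤ ℓ / 3 := by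
      have : Real.log 2 ≤ k * Real.log 2 := by nlinarith
      linarith
    have hn : (0 : ℝ) ≤ n := by positivity
    have h4 : (2 * n) * (Real.log 2 + ℓ) ≤ 8 / 3 * n * ℓ := by nlinarith
    -- multiply everything by k
    have h5 : k * ((2 * n) * (Real.log 2 + ℓ) + M * Real.log 2) < k * (a * ℓ) := by
      have h6 : k * ((2 * n) * (Real.log 2 + ℓ)) ≤ k * (8 / 3 * n * ℓ) := by gcongr
      have h7 : k * (8 / 3 * n * ℓ) < 2 / 3 * M * ℓ := by
        have : k * (8 / 3 * n * ℓ) = 2 / 3 * (4 * k * n) * ℓ := by ring
        rw [this]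
        have : 2 / 3 * (4 * k * n) < 2 / 3 * (M : ℝ) := by linarith
        exact mul_lt_mul_of_pos_right this hℓ0
      have h8 : k * (M * Real.log 2) ≤ 1 / 3 * M * ℓ := by
        have : k * (M * Real.log 2) = 1 / 3 * M * (3 * k * Real.log 2) := by ring
        rw [this]
        gcongr
      have h9 : (M : ℝ) * ℓ ≤ k * a * ℓ := by gcongr
      nlinarith
    exact lt_of_mul_lt_mul_left h5 (by linarith)
  have h1 : Real.log (((2 * p) ^ (2 * n) * 2 ^ M : ℕ) : ℝ) < Real.log ((p ^ a : ℕ) : ℝ) := by
    push_cast
    rw [Real.log_mul (by positivity) (by positivity), Real.log_pow, Real.log_pow, Real.log_pow,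
      Real.log_mul (by norm_num) (by positivity)]
    push_cast
    exact key
  have h2 := (Real.log_lt_log_iff (by positivity) (by positivity)).mp h1
  exact_mod_cast h2

end Pool.Agent.TH912.LG
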