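import Pool.Agent.TH912.LG.Sym
import Pool.Agent.TH912.LG.Base
import Pool.Agent.TH912.LG.Shift

set_option autoImplicit false

/-! The 2-to-1 games: cyclic covers of bipartite games with random shifts. -/

namespace Pool.Agent.TH912.LG

open Pool.Agent.TH912.LS (ball mem_ball ball_self ball_symm ball_trans ball_mono ball_adj dc)
open Pool.Agent.W179.Erdos (FCyc)

/-- a closed walk of the base that does not lift to a closed walk contains a cycle -/
theorem lift_cyc {B C : Type} {D : SimpleGraph B} {H : SimpleGraph C} (pr : C → B)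
    (h1 : ∀ s s', H.Adj s s' → D.Adj (pr s) (pr s'))
    (h2 : ∀ s s' s'', H.Adj s s' → H.Adj s' s'' → pr s'' = pr s → s'' = s) :
    ∀ (ℓ : ℕ) (f : ℕ → C), (∀ i < ℓ, H.Adj (f i) (f (i + 1))) → pr (f ℓ) = pr (f 0) →
      f ℓ ≠ f 0 → ∃ l h, l ≤ ℓ ∧ FCyc D l h := by
  intro ℓ
  induction ℓ using Nat.strong_induction_on with
  | _ ℓ ih =>
    intro f hadj hclose hne
    by_cases hinj : ∀ i < ℓ, ∀ j < ℓ, pr (f i) = pr (f j) → i = j
    · have e0 : ℓ ≠ 0 := by
        rintro rfl
        exact hne rfl
      have e1 : ℓ ≠ 1 := by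
        rintro rfl
        have := h1 _ _ (hadj 0 (by omega))
        rw [zero_add, hclose] at this
        exact D.loopless.irrefl _ this
      have e2 : ℓ ≠ 2 := by
        rintro rfl
        exact hne (h2 (f 0) (f 1) (f 2) (hadj 0 (by omega)) (hadj 1 (by omega)) hclose)
      refine ⟨ℓ, fun i => pr (f i), le_rfl, ⟨by omega, hinj,
        fun i hi => h1 _ _ (hadj i (by omega)), ?_⟩⟩
      have := h1 _ _ (hadj (ℓ - 1) (by omega))
      rwa [Nat.sub_add_cancel (by omega), hclose] at this
    · push Not at hinj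
      obtain ⟨i, hi, j, hj, hij, hne'⟩ := hinj
      wlog hlt : i < j generalizing i j with H
      · exact H j hj i hi hij.symm hne'.symm (by omega)
      obtain ⟨m, rfl⟩ : ∃ m, j = i + m := ⟨j - i, by omega⟩
      by_cases hfij : f i = f (i + m)
      · obtain ⟨l, h, hl, hc⟩ := ih (ℓ - m) (by omega)
          (fun x => if x ≤ i then f x else f (x + m)) (by
            intro x hx
            by_cases h1 : x + 1 ≤ i
            · rw [if_pos (by omega), if_pos h1]
              exact hadj x (by omega)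
            · by_cases h2 : x ≤ i
              · have h3 : x = i := by omega
                subst h3
                rw [if_pos le_rfl, if_neg (by omega), hfij]
                have := hadj (x + m) (by omega)
                rwa [show x + m + 1 = x + 1 + m by ring] at this
              · rw [if_neg h2, if_neg h1]
                have := hadj (x + m) (by omega)
                rwa [show x + m + 1 = x + 1 + m by ring] at this) (by
            show pr (if ℓ - m ≤ i then f (ℓ - m) else f (ℓ - m + m)) =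
              pr (if 0 ≤ i then f 0 else f (0 + m))
            rw [if_neg (by omega), if_pos (Nat.zero_le _), Nat.sub_add_cancel (by omega),
              hclose]) (by
            show (if ℓ - m ≤ i then f (ℓ - m) else f (ℓ - m + m)) ≠
              if 0 ≤ i then f 0 else f (0 + m)
            rw [if_neg (by omega), if_pos (Nat.zero_le _), Nat.sub_add_cancel (by omega)]
            exact hne)
        exact ⟨l, h, by omega, hc⟩
      · obtain ⟨l, h, hl, hc⟩ := ih m (by omega) (fun x => f (i + x))
          (fun x hx => hadj (i + x) (by omega)) (by simpa using hij.symm)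
          (by simpa using Ne.symm hfij)
        exact ⟨l, h, by omega, hc⟩

theorem dc_cyc {U : Type} {G : SimpleGraph U} {l : ℕ} {f : ℕ → U × Bool}
    (h : FCyc (dc G) l f) : ∃ l' h', l' ≤ l ∧ FCyc G l' h' := by
  by_cases hinj : ∀ i < l, ∀ j < l, (f i).1 = (f j).1 → i = j
  · exact ⟨l, fun i => (f i).1, le_rfl, ⟨h.three, hinj, fun i hi => (h.adj i hi).1, h.close.1⟩⟩
  · push Not at hinj
    obtain ⟨i, hi, j, hj, hij, hne'⟩ := hinj
    wlog hlt : i < j generalizing i j with H
    · exact H j hj i hi hij.symm hne'.symm (by omega)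
    obtain ⟨m, rfl⟩ : ∃ m, j = i + m := ⟨j - i, by omega⟩
    obtain ⟨l', h', hl', hc'⟩ := lift_cyc (D := G) (H := dc G) Prod.fst
      (fun s s' hs => hs.1) (by
        rintro ⟨a, a'⟩ ⟨b, b'⟩ ⟨c, c'⟩ ⟨_, h1⟩ ⟨_, h2⟩ h3
        simp only at h1 h2 h3
        subst h3
        have : c' = a' := by
          revert h1 h2
          cases a' <;> cases b' <;> cases c' <;> simp
        rw [this]) m (fun x => f (i + x))
      (fun x hx => h.adj (i + x) (by omega)) (by simpa using hij.symm)
      (by
        intro h4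
        have := h.inj _ (by omega) _ (by omega) h4
        omega)
    exact ⟨l', h', by omega, hc'⟩

section cover

variable {U : Type} {p : ℕ}

/-- the constraint maps: `(c, x) ↦ (false, x + g)` or `(false, x + g + j)` -/
def cmap (g j : ZMod p) : Bool × ZMod p → Bool × ZMod p :=
  fun a => (false, a.2 + g + if a.1 then j else 0)

open Classical in
/-- the cyclic cover of the bipartite game on the double cover of `G` with shifts `g` and `j` -/
noncomputable def cg (G : SimpleGraph U) (g j : U × U → ZMod p) :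
    Game (Bool × ZMod p) ((U × Bool) × ZMod p) where
  side x := x.1.2
  con x y := if x.1.2 = true ∧ y.1.2 = false ∧ G.Adj x.1.1 y.1.1 ∧
      y.2 = x.2 + g (x.1.1, y.1.1) then
    some (cmap (g (x.1.1, y.1.1)) (j (x.1.1, y.1.1))) else none

variable (G : SimpleGraph U) (g j : U × U → ZMod p)

theorem con_ne {x y : (U × Bool) × ZMod p} :
    (cg G g j).con x y ≠ none ↔ x.1.2 = true ∧ y.1.2 = false ∧ G.Adj x.1.1 y.1.1 ∧
      y.2 = x.2 + g (x.1.1, y.1.1) := by
  unfold cg
  dsimp only
  split_ifs with h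
  · exact ⟨fun _ => h, fun _ => by simp⟩
  · exact ⟨fun h' => absurd rfl h', fun h' => absurd h' h⟩

theorem con_some {x y : (U × Bool) × ZMod p} {π : Bool × ZMod p → Bool × ZMod p} :
    (cg G g j).con x y = some π ↔ (x.1.2 = true ∧ y.1.2 = false ∧ G.Adj x.1.1 y.1.1 ∧
      y.2 = x.2 + g (x.1.1, y.1.1)) ∧ cmap (g (x.1.1, y.1.1)) (j (x.1.1, y.1.1)) = π := by
  unfold cg
  dsimp only
  split_ifs with h
  · simp only [Option.some.injEq]
    exact ⟨fun h' => ⟨h, h'⟩, fun h' => h'.2⟩
  · simp only [reduceCtorEq, false_iff]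
    exact fun h' => h h'.1

theorem gr_adj {x y : (U × Bool) × ZMod p} (h : (cg G g j).gr.Adj x y) :
    (dc G).Adj x.1 y.1 := by
  obtain ⟨_, h | h⟩ := h
  · rw [con_ne] at h
    exact ⟨h.2.2.1, by rw [h.1, h.2.1]; simp⟩
  · rw [con_ne] at h
    exact ⟨h.2.2.1.symm, by rw [h.1, h.2.1]; simp⟩

theorem gr_back {x y z : (U × Bool) × ZMod p} (h : (cg G g j).gr.Adj x y)
    (h' : (cg G g j).gr.Adj y z) (hz : z.1 = x.1) : z = x := by
  obtain ⟨_, h⟩ := h
  obtain ⟨_, h'⟩ := h'
  rw [con_ne, con_ne] at h h'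
  refine Prod.ext hz ?_
  rcases h with h | h <;> rcases h' with h' | h'
  · have := h.2.1
    rw [h'.1] at this
    exact absurd this (by simp)
  · have e1 := h.2.2.2
    have e2 := h'.2.2.2
    rw [hz, e1] at e2
    exact (add_right_cancel e2).symm
  · have e1 := h.2.2.2
    have e2 := h'.2.2.2
    rw [hz] at e2
    rw [e1, e2]
  · have := h.1
    rw [h'.2.1] at this
    exact absurd this (by simp)

theorem cg_far {L : ℕ} (hL : ∀ l φ, FCyc G l φ → L < l) :
    Far (cg G g j) (fun (a : ZMod p) x => (x.1, x.2 + a)) L where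
  h0 := fun x => by simp
  hadd := fun a b x => by
    ext
    · rfl
    · rfl
    · show x.2 + (a + b) = x.2 + b + a
      ring
  hside := fun a v => rfl
  hcon := by
    intro a u v
    have h1 : (v.2 + a = u.2 + a + g (u.1.1, v.1.1)) ↔ (v.2 = u.2 + g (u.1.1, v.1.1)) := by
      constructor
      · intro h
        have : v.2 + a = (u.2 + g (u.1.1, v.1.1)) + a := by rw [h]; ring
        exact add_right_cancel this
      · intro h
        rw [h]; ring
    unfold cg
    dsimp only
    by_cases hc : u.1.2 = true ∧ v.1.2 = false ∧ G.Adj u.1.1 v.1.1 ∧ v.2 = u.2 + g (u.1.1, v.1.1)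
    · rw [if_pos hc, if_pos ⟨hc.1, hc.2.1, hc.2.2.1, h1.mpr hc.2.2.2⟩]
    · rw [if_neg hc, if_neg fun h => hc ⟨h.1, h.2.1, h.2.2.1, h1.mp h.2.2.2⟩]
  far := by
    rintro a x ⟨w, hw⟩
    by_contra ha
    obtain ⟨l, h, hl, hc⟩ := lift_cyc (D := dc G) (H := (cg G g j).gr) Prod.fst
      (fun s s' hs => gr_adj G g j hs) (fun s s' s'' h1 h2 h3 => gr_back G g j h1 h2 h3)
      w.length (fun i => w.getVert i) (fun i hi => w.adj_getVert_succ hi)
      (by simp) (by
        simp only [SimpleGraph.Walk.getVert_length, SimpleGraph.Walk.getVert_zero]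
        intro h
        have h2 : x.2 + a = x.2 := congrArg Prod.snd h
        exact ha (by simpa using h2))
    obtain ⟨l', h', hl', hc'⟩ := dc_cyc hc
    have := hL l' h' hc'
    omega

theorem cg_satisfiable : Satisfiable (cg G g j) := by
  refine ⟨fun x => (false, x.2), ?_⟩
  intro x y π h
  rw [con_some] at h
  obtain ⟨⟨_, _, _, h1⟩, rfl⟩ := h
  show cmap (g (x.1.1, y.1.1)) (j (x.1.1, y.1.1)) (false, x.2) = (false, y.2)
  rw [h1]
  simp [cmap]

theorem cg_twoToOne : TwoToOne (cg G g j) := by
  refine ⟨?_, ?_⟩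
  · intro x y h
    rw [con_ne] at h
    exact ⟨h.1, h.2.1⟩
  · intro x y π h b
    rw [con_some] at h
    obtain ⟨_, rfl⟩ := h
    have hinj : Set.InjOn (fun a : Bool × ZMod p => a.1)
        {a | cmap (g (x.1.1, y.1.1)) (j (x.1.1, y.1.1)) a = b} := by
      rintro ⟨c, z⟩ h1 ⟨c', z'⟩ h2 h3
      simp only [Set.mem_ofPred_eq, cmap] at h1 h2 h3
      subst h3
      have h4 := congrArg Prod.snd (h1.trans h2.symm)
      simp only at h4
      have h5 : z = z' := add_right_cancel (add_right_cancel h4)
      rw [h5]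
    have h1 := Set.ncard_le_ncard_of_injOn (t := (Set.univ : Set Bool))
      (fun a : Bool × ZMod p => a.1) (fun _ _ => Set.mem_univ _) hinj (Set.toFinite _)
    rw [Set.ncard_univ, Nat.card_eq_fintype_card, Fintype.card_bool] at h1
    exact h1

theorem cg_pairings (hj : ∀ u v v', G.Adj u v → G.Adj u v' → v ≠ v' → j (u, v) ≠ j (u, v')) :
    DifferentPairings (cg G g j) := by
  intro x y y' π π' hyy h h'
  rw [con_some] at h h'
  obtain ⟨⟨h1, h2, h3, h4⟩, rfl⟩ := h
  obtain ⟨⟨_, h2', h3', h4'⟩, rfl⟩ := h'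
  have hne : y.1.1 ≠ y'.1.1 := by
    intro he
    apply hyy
    have h5 : y.1 = y'.1 := Prod.ext he (h2.trans h2'.symm)
    refine Prod.ext h5 ?_
    rw [h4, h4', he]
  have hjj := hj _ _ _ h3 h3' hne
  refine ⟨(false, j (x.1.1, y.1.1)), (true, 0), by simp, ?_, ?_⟩
  · simp only [cmap]
    simp
    ring
  · simp only [cmap]
    simp
    intro h
    apply hjj
    have h6 : j (x.1.1, y.1.1) + g (x.1.1, y'.1.1) = j (x.1.1, y'.1.1) + g (x.1.1, y'.1.1) := by
      rw [h]; ring
    exact add_right_cancel h6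

theorem cg_degree {Δ : ℕ} (hdeg : ∀ u, (G.neighborSet u).ncard ≤ Δ) [Finite U]
    (x : (U × Bool) × ZMod p) : ((cg G g j).gr.neighborSet x).ncard ≤ Δ := by
  refine le_trans (b := (G.neighborSet x.1.1).ncard) ?_ (hdeg _)
  refine Set.ncard_le_ncard_of_injOn (fun y => y.1.1) ?_ ?_ (Set.toFinite _)
  · intro y hy
    exact (gr_adj G g j hy).1
  · intro y hy z hz hyz
    have hyz' : y.1.1 = z.1.1 := hyz
    have e1 := gr_adj G g j hy
    have e2 := gr_adj G g j hz
    have hs : y.1.2 = z.1.2 := by
      have a1 := e1.2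
      have a2 := e2.2
      revert a1 a2
      cases x.1.2 <;> cases y.1.2 <;> cases z.1.2 <;> simp
    have h1 : z.1 = y.1 := Prod.ext hyz'.symm hs.symm
    exact (gr_back G g j (SimpleGraph.Adj.symm hy) hz h1).symm

end cover

end Pool.Agent.TH912.LG
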