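import Pool.Agent.TH912.LS.Lift

set_option autoImplicit false

/-! Local search with auxiliary states on 2-to-1 games: definitions. -/

namespace Pool.Agent.TH912.LG

open Pool.Agent.TH912.LS (ball)

/-- A game with label set `Q` on the vertex set `V`: every vertex is on the left or on the right
(`side v = true` means left), and `con u v = some π` means that there is a constraint from `u` to `v`
with the map `π`. -/
structure Game (Q V : Type) where
  side : V → Bool
  con : V → V → Option (Q → Q)

/-- 2-to-1 game: all constraints go from left to right and every fibre of every constraint map has at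
most two elements. -/
def TwoToOne {Q V : Type} (X : Game Q V) : Prop :=
  (∀ u v, X.con u v ≠ none → X.side u = true ∧ X.side v = false) ∧
  ∀ u v π, X.con u v = some π → ∀ b : Q, {a | π a = b}.ncard ≤ 2

/-- Any two constraints at the same left vertex pair up the labels differently. -/
def DifferentPairings {Q V : Type} (X : Game Q V) : Prop :=
  ∀ u v v' π π', v ≠ v' → X.con u v = some π → X.con u v' = some π' →
    ∃ a b : Q, a ≠ b ∧ π a = π b ∧ π' a ≠ π' b

/-- the constraint graph -/
def Game.gr {Q V : Type} (X : Game Q V) : SimpleGraph V where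
  Adj u v := u ≠ v ∧ (X.con u v ≠ none ∨ X.con v u ≠ none)
  symm := ⟨fun _ _ h => ⟨h.1.symm, h.2.symm⟩⟩
  loopless := ⟨fun _ h => h.1 rfl⟩

/-- the number of constraints -/
noncomputable def numCon {Q V : Type} (X : Game Q V) : ℕ :=
  {e : V × V | X.con e.1 e.2 ≠ none}.ncard

/-- the number of constraints satisfied by the labelling `L` -/
noncomputable def numSat {Q V : Type} (X : Game Q V) (L : V → Q) : ℕ :=
  {e : V × V | ∃ π, X.con e.1 e.2 = some π ∧ π (L e.1) = L e.2}.ncard

/-- `X` has value `1`: some labelling satisfies all constraints. -/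
def Satisfiable {Q V : Type} (X : Game Q V) : Prop :=
  ∃ L : V → Q, ∀ u v π, X.con u v = some π → π (L u) = L v

/-- The radius-`r` view of `v` in the game `X` with states `σ` is isomorphic to the radius-`r` view
of `v'` in the game `X'` with states `σ'`. -/
def SameView (r : ℕ) {Q S V V' : Type} (X : Game Q V) (σ : V → S) (v : V)
    (X' : Game Q V') (σ' : V' → S) (v' : V') : Prop :=
  ∃ e : ball X.gr v r ≃ ball X'.gr v' r,
    (∀ x : ball X.gr v r, (x : V) = v ↔ (e x : V') = v') ∧
    (∀ x : ball X.gr v r, X.side (x : V) = X'.side (e x : V')) ∧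
    (∀ x y : ball X.gr v r, X.con (x : V) (y : V) = X'.con (e x : V') (e y : V')) ∧
    ∀ x : ball X.gr v r, σ (x : V) = σ' (e x : V')

/-- A local cost of radius `r`: every vertex pays a real cost which depends only on the isomorphism
type of its radius-`r` view. -/
structure LocalCost (Q S : Type) (r : ℕ) where
  cost : {V : Type} → Game Q V → (V → S) → V → ℝ
  invariant : ∀ {V V' : Type} (X : Game Q V) (σ : V → S) (v : V)
    (X' : Game Q V') (σ' : V' → S) (v' : V'),
    SameView r X σ v X' σ' v' → cost X σ v = cost X' σ' v'

/-- The potential: the sum of the local costs of all vertices. -/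
noncomputable def LocalCost.total {Q S : Type} {r : ℕ} (F : LocalCost Q S r) {V : Type} [Fintype V]
    (X : Game Q V) (σ : V → S) : ℝ :=
  ∑ v, F.cost X σ v

/-- An improving move: from `σ` to a `σ'` that differs from `σ` only inside the union of at most `m`
balls of radius `t` and has smaller potential. -/
def Step {Q S V : Type} [Fintype V] {r : ℕ} (F : LocalCost Q S r) (m t : ℕ)
    (X : Game Q V) (σ σ' : V → S) : Prop :=
  (∃ T : Finset V, T.card ≤ m ∧ ∀ v, σ' v ≠ σ v → ∃ c ∈ T, v ∈ ball X.gr c t) ∧
  F.total X σ' < F.total X σ

/-- automorphisms of a game -/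
def IsAut {Q V : Type} (X : Game Q V) (φ : V ≃ V) : Prop :=
  (∀ v, X.side (φ v) = X.side v) ∧ ∀ u v, X.con (φ u) (φ v) = X.con u v

end Pool.Agent.TH912.LG
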