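import Pool.Agent.TH912.LG.Cover

set_option autoImplicit false

/-! The lower bound for 2-to-1 games. -/

namespace Pool.Agent.TH912.LG

open Finset
open Pool.Agent.TH912.LS (ball mem_ball ball_self ball_symm ball_trans ball_mono ball_adj dc)
open Pool.Agent.W179.Erdos (FCyc)

theorem exists_inj {U : Type} [Fintype U] (p Δ : ℕ) (hp : Δ < p) (A : Set U) (hA : A.ncard ≤ Δ) :
    ∃ f : U → ZMod p, Set.InjOn f A := by
  classical
  let s : Finset U := A.toFinset
  have hs : s.card ≤ Δ := by rwa [← Set.ncard_eq_toFinset_card']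
  refine ⟨fun v => if h : v ∈ s then (((s.equivFin ⟨v, h⟩ : Fin s.card) : ℕ) : ZMod p) else 0, ?_⟩
  intro v hv w hw hvw
  have hv' : v ∈ s := Set.mem_toFinset.mpr hv
  have hw' : w ∈ s := Set.mem_toFinset.mpr hw
  simp only [dif_pos hv', dif_pos hw'] at hvw
  rw [ZMod.natCast_eq_natCast_iff'] at hvw
  have h1 := (s.equivFin ⟨v, hv'⟩).isLt
  have h2 := (s.equivFin ⟨w, hw'⟩).isLt
  rw [Nat.mod_eq_of_lt (by omega), Nat.mod_eq_of_lt (by omega)] at hvw
  have h3 := s.equivFin.injective (Fin.ext hvw)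
  exact congrArg Subtype.val h3

section counts

variable {U : Type} [Fintype U] {p : ℕ} [NeZero p] (G : SimpleGraph U) (g j : U × U → ZMod p)

/-- the constraints of the cover, as a function of an edge of the base and a sheet -/
def edge (e : (U × U) × ZMod p) : ((U × Bool) × ZMod p) × ((U × Bool) × ZMod p) :=
  (((e.1.1, true), e.2), ((e.1.2, false), e.2 + g e.1))

omit [Fintype U] [NeZero p] in
theorem edge_inj : Function.Injective (edge g) := by
  rintro ⟨⟨u, v⟩, x⟩ ⟨⟨u', v'⟩, x'⟩ h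
  simp only [edge, Prod.mk.injEq, and_true] at h
  obtain ⟨⟨rfl, rfl⟩, rfl, _⟩ := h
  rfl

open Classical in
theorem numCon_cg :
    numCon (cg G g j) = (univ.filter fun e : U × U => G.Adj e.1 e.2).card * p := by
  have h1 : {e : ((U × Bool) × ZMod p) × ((U × Bool) × ZMod p) | (cg G g j).con e.1 e.2 ≠ none} =
      edge g '' (((univ.filter fun e : U × U => G.Adj e.1 e.2) ×ˢ (univ : Finset (ZMod p)) :
        Finset ((U × U) × ZMod p)) : Set ((U × U) × ZMod p)) := by
    ext ⟨x, y⟩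
    rw [Set.mem_ofPred_eq, con_ne]
    constructor
    · rintro ⟨h1, h2, h3, h4⟩
      dsimp only at h1 h2 h3 h4
      refine ⟨((x.1.1, y.1.1), x.2), ?_, ?_⟩
      · simp [h3]
      · simp only [edge]
        ext <;> simp [h1, h2, h4]
    · rintro ⟨⟨e, z⟩, h1, h2⟩
      simp only [coe_product, Set.mem_prod, mem_coe, mem_filter, mem_univ, true_and,
        and_true] at h1
      simp only [edge, Prod.mk.injEq] at h2
      obtain ⟨rfl, rfl⟩ := h2
      exact ⟨rfl, rfl, h1, rfl⟩
  unfold numCon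
  rw [h1, Set.ncard_image_of_injective _ (edge_inj g), Set.ncard_coe_finset, card_product,
    card_univ, ZMod.card]

open Classical in
theorem numSat_cg (L : (U × Bool) × ZMod p → Bool × ZMod p) (L0 : U × Bool → Bool × ZMod p)
    (hL : ∀ x, L x = L0 x.1) :
    numSat (cg G g j) L = ((univ.filter fun e : U × U => G.Adj e.1 e.2).filter fun e =>
      cmap (g e) (j e) (L0 (e.1, true)) = L0 (e.2, false)).card * p := by
  have h1 : {e : ((U × Bool) × ZMod p) × ((U × Bool) × ZMod p) |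
      ∃ π, (cg G g j).con e.1 e.2 = some π ∧ π (L e.1) = L e.2} =
      edge g '' ((((univ.filter fun e : U × U => G.Adj e.1 e.2).filter fun e =>
        cmap (g e) (j e) (L0 (e.1, true)) = L0 (e.2, false)) ×ˢ (univ : Finset (ZMod p)) :
        Finset ((U × U) × ZMod p)) : Set ((U × U) × ZMod p)) := by
    ext ⟨x, y⟩
    rw [Set.mem_ofPred_eq]
    constructor
    · rintro ⟨π, h0, h5⟩
      rw [con_some] at h0
      obtain ⟨⟨h1, h2, h3, h4⟩, rfl⟩ := h0
      simp only at h1 h2 h3 h4 h5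
      rw [hL, hL] at h5
      refine ⟨((x.1.1, y.1.1), x.2), ?_, ?_⟩
      · simp only [coe_product, Set.mem_prod, mem_coe, mem_filter, mem_univ, true_and, and_true]
        refine ⟨h3, ?_⟩
        have e1 : (x.1.1, true) = x.1 := Prod.ext rfl h1.symm
        have e2 : (y.1.1, false) = y.1 := Prod.ext rfl h2.symm
        rw [e1, e2]
        exact h5
      · simp only [edge]
        ext <;> simp [h1, h2, h4]
    · rintro ⟨⟨e, z⟩, h1, h2⟩
      simp only [coe_product, Set.mem_prod, mem_coe, mem_filter, mem_univ, true_and,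
        and_true] at h1
      simp only [edge, Prod.mk.injEq] at h2
      obtain ⟨rfl, rfl⟩ := h2
      refine ⟨cmap (g e) (j e), ?_, ?_⟩
      · rw [con_some]
        exact ⟨⟨rfl, rfl, h1.1, rfl⟩, rfl⟩
      · rw [hL, hL]
        exact h1.2
  unfold numSat
  rw [h1, Set.ncard_image_of_injective _ (edge_inj g), Set.ncard_coe_finset, card_product,
    card_univ, ZMod.card]

end counts

theorem lower (k : ℕ) (hk : 1 ≤ k) : ∃ (Q : Type) (_ : Fintype Q) (Δ : ℕ) (c : ℝ), 0 < c ∧
    ∀ N : ℕ, ∃ (V : Type) (_ : Fintype V) (X : Game Q V),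
      N ≤ Fintype.card V ∧ TwoToOne X ∧ DifferentPairings X ∧ Satisfiable X ∧ 0 < numCon X ∧
      (∀ v, (X.gr.neighborSet v).ncard ≤ Δ) ∧
      ∀ (S : Type) [Finite S] (lab : Bool → S → Q) (r m t : ℕ) (F : LocalCost Q S r)
        (start : V → S),
        (m * (t + r + 1) : ℝ) ≤ c * Real.log (Fintype.card V) →
        (∀ φ : V ≃ V, IsAut X φ → ∀ v, start (φ v) = start v) →
        ∃ σ : V → S, Relation.ReflTransGen (Step F m t X) start σ ∧
          (∀ σ', ¬ Step F m t X σ σ') ∧
          k * numSat X (fun v => lab (X.side v) (σ v)) ≤ numCon X := by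
  classical
  obtain ⟨d, hd⟩ : ∃ d : ℕ, d = 8 * k + 1 := ⟨_, rfl⟩
  obtain ⟨Δ, hΔ⟩ : ∃ Δ : ℕ, Δ = 32 * (2 * (4 * d) * (8 * (4 * d) + 1)) := ⟨_, rfl⟩
  obtain ⟨p, hp8, hpΔ⟩ : ∃ p : ℕ, 8 ^ k ≤ p ∧ Δ < p :=
    ⟨8 ^ k + (Δ + 1), Nat.le_add_right _ _, lt_of_lt_of_le (Nat.lt_succ_self Δ)
      (Nat.le_add_left _ _)⟩
  have hp0 : 0 < p := by omega
  have : NeZero p := ⟨by omega⟩
  obtain ⟨D, hD⟩ : ∃ D : ℝ, D = (2 * (4 * d : ℕ) * (8 * (4 * d : ℕ) + 1) : ℝ) := ⟨_, rfl⟩
  have hD1 : 1 ≤ D := by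
    rw [hD]
    have : (1 : ℝ) ≤ ((4 * d : ℕ) : ℝ) := by
      have : 1 ≤ 4 * d := by omega
      exact_mod_cast this
    nlinarith
  have hlogD : 0 ≤ Real.log D := Real.log_nonneg hD1
  have hlogp : 0 < Real.log (2 * p) := by
    apply Real.log_pos
    have : (1 : ℝ) ≤ p := by exact_mod_cast hp0
    linarith
  obtain ⟨C1, hC1⟩ : ∃ C1 : ℝ, C1 = Real.log (2 * p) + 5 * Real.log D := ⟨_, rfl⟩
  have hC1pos : 0 < C1 := by rw [hC1]; positivity
  refine ⟨Bool × ZMod p, inferInstance, Δ, 1 / (4 * C1), by positivity, ?_⟩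
  intro N
  obtain ⟨g0, hg0N, hg01⟩ : ∃ g0 : ℕ, N ≤ g0 ∧ 1 ≤ g0 :=
    ⟨max N 1, le_max_left _ _, le_max_right _ _⟩
  obtain ⟨U, _, G, h1, h2, h3, h4, h5⟩ := base_edges d g0 (by omega)
  rw [← hD] at h2
  rw [← hΔ] at h3
  obtain ⟨n, hn⟩ : ∃ n : ℕ, n = Fintype.card U := ⟨_, rfl⟩
  rw [← hn] at h1 h2 h5
  have hn1 : 1 ≤ n := by omega
  obtain ⟨M, hM⟩ : ∃ M : ℕ, M = (univ.filter fun e : U × U => G.Adj e.1 e.2).card := ⟨_, rfl⟩
  rw [← hM] at h5
  have hMn : 4 * k * n < M := by
    rw [hd] at h5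
    nlinarith
  -- the pairings
  have hj : ∀ u : U, ∃ f : U → ZMod p, Set.InjOn f (G.neighborSet u) := fun u =>
    exists_inj p Δ (by omega) _ (h3 u)
  choose jf hjf using hj
  let j : U × U → ZMod p := fun e => jf e.1 e.2
  have hjne : ∀ u v v', G.Adj u v → G.Adj u v' → v ≠ v' → j (u, v) ≠ j (u, v') := by
    intro u v v' hv hv' hne h
    exact hne (hjf u hv hv' h)
  -- the shifts
  let tL : (U × Bool → Bool × ZMod p) → U × U → ZMod p := fun L e =>
    (L (e.2, false)).2 - (L (e.1, true)).2 - (if (L (e.1, true)).1 then j e else 0)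
  have ha : M < k * (M / k + 1) := by
    have := Nat.lt_mul_div_succ M (show 0 < k by omega)
    simpa using this
  have hcardL : Fintype.card (U × Bool → Bool × ZMod p) = (2 * p) ^ (2 * n) := by
    rw [Fintype.card_fun, Fintype.card_prod, Fintype.card_prod, Fintype.card_bool, ZMod.card,
      ← hn, mul_comm n 2]
  obtain ⟨g, hg⟩ := exists_shift (P := ZMod p) (univ.filter fun e : U × U => G.Adj e.1 e.2) tL
    (M / k + 1) (by
    rw [hcardL, ZMod.card, ← hM]
    exact numeric k p n M (M / k + 1) hk hp8 hMn ha.le) (by rw [ZMod.card]; exact hp0)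
  -- the game
  have hV : Fintype.card ((U × Bool) × ZMod p) = 2 * n * p := by
    rw [Fintype.card_prod, Fintype.card_prod, Fintype.card_bool, ZMod.card, ← hn]
    ring
  refine ⟨(U × Bool) × ZMod p, inferInstance, cg G g j, ?_, cg_twoToOne G g j,
    cg_pairings G g j hjne, cg_satisfiable G g j, ?_, cg_degree G g j h3, ?_⟩
  · rw [hV]
    have : 2 * n * 1 ≤ 2 * n * p := Nat.mul_le_mul_left _ hp0
    omega
  · rw [numCon_cg, ← hM]
    exact Nat.mul_pos (by omega) hp0
  · intro S _ lab r m t F start hbd hsym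
    have hL : m * (2 * t + 2 * r + 1) ≤ g0 := by
      rw [hV] at hbd
      have hnpos : (0 : ℝ) < n := by exact_mod_cast hn1
      have hppos : (0 : ℝ) < p := by exact_mod_cast hp0
      have e1 : Real.log ((2 * n * p : ℕ) : ℝ) = Real.log (2 * p) + Real.log n := by
        rw [← Real.log_mul (by positivity) (by positivity)]
        congr 1
        push_cast
        ring
      have e2 : Real.log n ≤ (2 * (g0 : ℕ) + 5) * Real.log D := by
        have := Real.log_le_log hnpos h2
        rw [Real.log_pow] at this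
        push_cast at this
        exact this
      have e3 : Real.log ((2 * n * p : ℕ) : ℝ) ≤ ((g0 : ℕ) + 1) * C1 := by
        rw [e1, hC1]
        have : (0 : ℝ) ≤ ((g0 : ℕ) : ℝ) := by positivity
        nlinarith
      have e4 : (m * (t + r + 1) : ℝ) ≤ ((g0 : ℕ) + 1) / 4 := by
        refine hbd.trans ?_
        calc 1 / (4 * C1) * Real.log ((2 * n * p : ℕ) : ℝ)
            ≤ 1 / (4 * C1) * (((g0 : ℕ) + 1) * C1) := by gcongr
          _ = ((g0 : ℕ) + 1) / 4 := by field_simp
      have e5 : (4 * (m * (t + r + 1)) : ℝ) ≤ (g0 : ℕ) + 1 := by linarith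
      have e6 : 4 * (m * (t + r + 1)) ≤ g0 + 1 := by exact_mod_cast e5
      have e7 : m * (2 * t + 2 * r + 1) ≤ 2 * (m * (t + r + 1)) := by nlinarith
      omega
    have hfar := cg_far G g j (L := g0) h4
    have hstart : ∀ (a : ZMod p) x, start (x.1, x.2 + a) = start x := by
      intro a x
      let φ : ((U × Bool) × ZMod p) ≃ ((U × Bool) × ZMod p) :=
        ⟨fun x => (x.1, x.2 + a), fun x => (x.1, x.2 - a), fun x => by simp, fun x => by simp⟩
      exact hsym φ ⟨fun v => hfar.hside a v, fun u v => hfar.hcon a u v⟩ x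
    obtain ⟨σ, hinv, hrun, hstuck⟩ := hfar.run F hL start hstart
    refine ⟨σ, hrun, hstuck, ?_⟩
    have hσ : ∀ s x, σ (s, x) = σ (s, 0) := by
      intro s x
      have := hinv x (s, 0)
      simpa using this
    let L0 : U × Bool → Bool × ZMod p := fun s => lab s.2 (σ (s, 0))
    rw [numCon_cg, numSat_cg G g j _ L0 (by
      rintro ⟨s, x⟩
      show lab s.2 (σ (s, x)) = lab s.2 (σ (s, 0))
      rw [hσ])]
    have h6 : ((univ.filter fun e : U × U => G.Adj e.1 e.2).filter fun e =>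
        cmap (g e) (j e) (L0 (e.1, true)) = L0 (e.2, false)).card < M / k + 1 := by
      refine lt_of_le_of_lt (card_le_card ?_) (hg L0)
      intro e he
      rw [mem_filter] at he ⊢
      refine ⟨he.1, ?_⟩
      have h7 := congrArg Prod.snd he.2
      simp only [cmap] at h7
      show g e = (L0 (e.2, false)).2 - (L0 (e.1, true)).2 -
        (if (L0 (e.1, true)).1 then j e else 0)
      rw [← h7]
      ring
    rw [← hM]
    have h8 : k * ((univ.filter fun e : U × U => G.Adj e.1 e.2).filter fun e =>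
        cmap (g e) (j e) (L0 (e.1, true)) = L0 (e.2, false)).card ≤ M := by
      have h9 : k * (M / k) ≤ M := Nat.mul_div_le M k
      have h10 : ((univ.filter fun e : U × U => G.Adj e.1 e.2).filter fun e =>
        cmap (g e) (j e) (L0 (e.1, true)) = L0 (e.2, false)).card ≤ M / k := by omega
      exact (Nat.mul_le_mul_left k h10).trans h9
    rw [← mul_assoc]
    exact Nat.mul_le_mul_right p h8

end Pool.Agent.TH912.LG
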