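import Pool.Agent.TH912.LG.Defs

set_option autoImplicit false

/-! Symmetric runs of local search. -/

namespace Pool.Agent.TH912.LG

open Classical
open Pool.Agent.TH912.LS (ball mem_ball ball_self ball_symm ball_trans ball_mono ball_adj)

variable {Q V S : Type}

theorem cost_congr {r : ℕ} (F : LocalCost Q S r) {X : Game Q V} {v : V} {σ σ' : V → S}
    (h : ∀ x ∈ ball X.gr v r, σ x = σ' x) : F.cost X σ v = F.cost X σ' v :=
  F.invariant _ _ _ _ _ _
    ⟨Equiv.refl _, fun _ => Iff.rfl, fun _ => rfl, fun _ _ => rfl, fun x => h x x.2⟩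

/-- the change restricted to `A` -/
noncomputable def onA (A : Set V) (σ σ' : V → S) : V → S := fun v => if v ∈ A then σ' v else σ v

theorem onA_mem {A : Set V} {σ σ' : V → S} {v : V} (h : v ∈ A) : onA A σ σ' v = σ' v := if_pos h

theorem onA_not {A : Set V} {σ σ' : V → S} {v : V} (h : v ∉ A) : onA A σ σ' v = σ v := if_neg h

theorem split_cost {X : Game Q V} {r : ℕ} (F : LocalCost Q S r) (A : Set V) (σ σ' : V → S)
    (hA : ∀ x y, σ' x ≠ σ x → σ' y ≠ σ y → x ∈ A → y ∉ A → y ∉ ball X.gr x (2 * r)) (v : V) :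
    F.cost X σ' v + F.cost X σ v = F.cost X (onA A σ σ') v + F.cost X (onA A σ' σ) v := by
  by_cases h : ∃ x ∈ ball X.gr v r, σ' x ≠ σ x ∧ x ∈ A
  · obtain ⟨x, hx, hx1, hx2⟩ := h
    have h1 : ∀ y ∈ ball X.gr v r, σ' y ≠ σ y → y ∈ A := by
      intro y hy hy1
      by_contra hy2
      exact hA x y hx1 hy1 hx2 hy2 (ball_mono (ball_trans (ball_symm hx) hy) (by omega))
    have h2 : F.cost X (onA A σ σ') v = F.cost X σ' v := by
      apply cost_congr
      intro y hy
      by_cases hyA : y ∈ A
      · rw [onA_mem hyA]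
      · rw [onA_not hyA]
        by_contra hne
        exact hyA (h1 y hy (Ne.symm hne))
    have h3 : F.cost X (onA A σ' σ) v = F.cost X σ v := by
      apply cost_congr
      intro y hy
      by_cases hyA : y ∈ A
      · rw [onA_mem hyA]
      · rw [onA_not hyA]
        by_contra hne
        exact hyA (h1 y hy hne)
    rw [h2, h3]
  · push Not at h
    have h2 : F.cost X (onA A σ σ') v = F.cost X σ v := by
      apply cost_congr
      intro y hy
      by_cases hyA : y ∈ A
      · rw [onA_mem hyA]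
        by_contra hne
        exact h y hy hne hyA
      · rw [onA_not hyA]
    have h3 : F.cost X (onA A σ' σ) v = F.cost X σ' v := by
      apply cost_congr
      intro y hy
      by_cases hyA : y ∈ A
      · rw [onA_mem hyA]
        by_contra hne
        exact h y hy (Ne.symm hne) hyA
      · rw [onA_not hyA]
    rw [h2, h3, add_comm]

theorem split_total [Fintype V] {X : Game Q V} {r : ℕ} (F : LocalCost Q S r) (A : Set V)
    (σ σ' : V → S)
    (hA : ∀ x y, σ' x ≠ σ x → σ' y ≠ σ y → x ∈ A → y ∉ A → y ∉ ball X.gr x (2 * r)) :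
    F.total X σ' + F.total X σ = F.total X (onA A σ σ') + F.total X (onA A σ' σ) := by
  unfold LocalCost.total
  rw [← Finset.sum_add_distrib, ← Finset.sum_add_distrib]
  exact Finset.sum_congr rfl fun v _ => split_cost F A σ σ' hA v

/-- An improving change inside `m` balls contains an improving change of small diameter. -/
theorem small_step [Fintype V] {X : Game Q V} {r d m t : ℕ} (F : LocalCost Q S r)
    (σ : V → S)
    (hpush : ∀ σ' : V → S,
      (∃ T : Finset V, T.card ≤ m ∧ ∀ v, σ' v ≠ σ v → ∃ c ∈ T, v ∈ ball X.gr c t) →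
      (∀ x y, σ' x ≠ σ x → σ' y ≠ σ y → y ∈ ball X.gr x d) → F.total X σ ≤ F.total X σ')
    (hm : (m - 1) * (2 * t + 2 * r + 1) + 2 * t ≤ d) :
    ∀ T : Finset V, T.card ≤ m → ∀ σ' : V → S,
      (∀ v, σ' v ≠ σ v → ∃ c ∈ T, v ∈ ball X.gr c t) → F.total X σ ≤ F.total X σ' := by
  intro T
  induction T using Finset.strongInduction with
  | H T ih =>
    intro hT σ' hD
    by_cases hT0 : T.Nonempty
    · obtain ⟨c0, hc0⟩ := hT0
      let K : SimpleGraph {c // c ∈ T} :=
        { Adj := fun i j => i ≠ j ∧ ∃ x y, σ' x ≠ σ x ∧ σ' y ≠ σ y ∧ x ∈ ball X.gr i t ∧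
            y ∈ ball X.gr j t ∧ y ∈ ball X.gr x (2 * r)
          symm := ⟨by
            rintro i j ⟨hij, x, y, h1, h2, h3, h4, h5⟩
            exact ⟨hij.symm, y, x, h2, h1, h4, h3, ball_symm h5⟩⟩
          loopless := ⟨fun i h => h.1 rfl⟩ }
      have hK : ∀ i j (w : K.Walk i j),
          (j : V) ∈ ball X.gr i (w.length * (2 * t + 2 * r + 1)) := by
        intro i j w
        induction w with
        | nil => exact ball_self _ _ _
        | @cons i z j h w ih =>
          obtain ⟨_, x, y, h1, h2, h3, h4, h5⟩ := h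
          have h6 : (z : V) ∈ ball X.gr i (2 * t + 2 * r + 1) :=
            ball_mono (ball_trans (ball_trans h3 h5) (ball_symm h4)) (by omega)
          refine ball_mono (ball_trans h6 ih) ?_
          rw [SimpleGraph.Walk.length_cons]
          ring_nf
          omega
      let J : Finset V := T.filter fun c => ∃ h : c ∈ T, K.Reachable ⟨c0, hc0⟩ ⟨c, h⟩
      have hJ0 : c0 ∈ J := by
        simp only [J, Finset.mem_filter]
        exact ⟨hc0, hc0, SimpleGraph.Reachable.refl _⟩
      by_cases hJ : J = T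
      · apply hpush σ' ⟨T, hT, hD⟩
        intro x y hx hy
        obtain ⟨c, hc, hcx⟩ := hD x hx
        obtain ⟨c', hc', hcy⟩ := hD y hy
        have h1 : K.Reachable ⟨c0, hc0⟩ ⟨c, hc⟩ := by
          have := hJ.symm ▸ hc
          simp only [J, Finset.mem_filter] at this
          exact this.2.2
        have h2 : K.Reachable ⟨c0, hc0⟩ ⟨c', hc'⟩ := by
          have := hJ.symm ▸ hc'
          simp only [J, Finset.mem_filter] at this
          exact this.2.2
        obtain ⟨p, hp⟩ := (h1.symm.trans h2).exists_isPath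
        have h3 := hp.length_lt
        have h4 : p.length ≤ m - 1 := by
          rw [Fintype.card_coe] at h3
          omega
        have h5 := hK _ _ p
        have h6 : y ∈ ball X.gr x (t + p.length * (2 * t + 2 * r + 1) + t) :=
          ball_trans (ball_trans (ball_symm hcx) h5) hcy
        refine ball_mono h6 ?_
        have h7 : p.length * (2 * t + 2 * r + 1) ≤ (m - 1) * (2 * t + 2 * r + 1) :=
          Nat.mul_le_mul_right _ h4
        omega
      · have hJT : J ⊂ T := by
          rw [Finset.ssubset_iff_subset_ne]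
          exact ⟨Finset.filter_subset _ _, hJ⟩
        have hJT' : T \ J ⊂ T := by
          rw [Finset.ssubset_iff_subset_ne]
          refine ⟨Finset.sdiff_subset, fun h => ?_⟩
          rw [← h] at hc0
          exact (Finset.mem_sdiff.mp hc0).2 hJ0
        let A : Set V := {x | ∃ c ∈ J, x ∈ ball X.gr c t}
        have hA : ∀ x y, σ' x ≠ σ x → σ' y ≠ σ y → x ∈ A → y ∉ A → y ∉ ball X.gr x (2 * r) := by
          intro x y hx hy hxA hyA hxy
          obtain ⟨c, hc, hcx⟩ := hxA
          obtain ⟨c', hc', hcy⟩ := hD y hy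
          apply hyA
          refine ⟨c', ?_, hcy⟩
          have hcJ : ∃ h : c ∈ T, K.Reachable ⟨c0, hc0⟩ ⟨c, h⟩ := (Finset.mem_filter.mp hc).2
          obtain ⟨hcT, hreach⟩ := hcJ
          simp only [J, Finset.mem_filter]
          refine ⟨hc', hc', ?_⟩
          by_cases hcc : c = c'
          · subst hcc; exact hreach
          · have hadj : K.Adj ⟨c, hcT⟩ ⟨c', hc'⟩ :=
              ⟨fun h => hcc (congrArg Subtype.val h), x, y, hx, hy, hcx, hcy, hxy⟩
            exact hreach.trans hadj.reachable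
        have h1 : F.total X σ ≤ F.total X (onA A σ σ') := by
          refine ih J hJT ((Finset.card_le_card hJT.subset).trans hT) _ ?_
          intro v hv
          by_cases hvA : v ∈ A
          · exact hvA
          · exact absurd (onA_not hvA) hv
        have h2 : F.total X σ ≤ F.total X (onA A σ' σ) := by
          refine ih (T \ J) hJT' ((Finset.card_le_card hJT'.subset).trans hT) _ ?_
          intro v hv
          by_cases hvA : v ∈ A
          · exact absurd (onA_mem hvA) hv
          · rw [onA_not hvA] at hv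
            obtain ⟨c, hc, hcv⟩ := hD v hv
            refine ⟨c, Finset.mem_sdiff.mpr ⟨hc, fun h => hvA ⟨c, h, hcv⟩⟩, hcv⟩
        have h3 := split_total F A σ σ' hA
        linarith
    · have hσσ : σ' = σ := by
        funext v
        by_contra hne
        obtain ⟨c, hc, _⟩ := hD v hne
        exact hT0 ⟨c, hc⟩
      rw [hσσ]

section group

variable {Γ : Type} [AddGroup Γ] [Fintype Γ] {X : Game Q V} (T : Γ → V → V)
  (h0 : ∀ x, T 0 x = x) (hadd : ∀ a b x, T (a + b) x = T a (T b x))
  (hside : ∀ a v, X.side (T a v) = X.side v) (hcon : ∀ a u v, X.con (T a u) (T a v) = X.con u v)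

include h0 hadd

omit [Fintype Γ] in
theorem T_neg (a : Γ) (x : V) : T (-a) (T a x) = x := by
  rw [← hadd, neg_add_cancel, h0]

omit [Fintype Γ] in
theorem T_neg' (a : Γ) (x : V) : T a (T (-a) x) = x := by
  rw [← hadd, add_neg_cancel, h0]

omit [Fintype Γ] in
theorem T_inj (a : Γ) : Function.Injective (T a) := by
  intro x y h
  rw [← T_neg T h0 hadd a x, h, T_neg T h0 hadd a y]

include hcon

omit [Fintype Γ] in
theorem ball_T (a : Γ) {c x : V} {n : ℕ} (h : x ∈ ball X.gr c n) :
    T a x ∈ ball X.gr (T a c) n := by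
  obtain ⟨w, hw⟩ := h
  let f : X.gr →g X.gr :=
    { toFun := T a
      map_rel' := by
        rintro u v ⟨h1, h2⟩
        refine ⟨fun h => h1 (T_inj T h0 hadd a h), ?_⟩
        rw [hcon, hcon]
        exact h2 }
  exact ⟨w.map f, by rw [SimpleGraph.Walk.length_map]; exact hw⟩

omit [Fintype Γ] in
theorem ball_T' (a : Γ) {c x : V} {n : ℕ} (h : x ∈ ball X.gr (T a c) n) :
    T (-a) x ∈ ball X.gr c n := by
  have := ball_T T h0 hadd hcon (-a) h
  rwa [T_neg T h0 hadd] at this

include hside

omit [Fintype Γ] in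
theorem cost_T {r : ℕ} (F : LocalCost Q S r) (σ : V → S) (a : Γ) (v : V) :
    F.cost X (fun x => σ (T a x)) v = F.cost X σ (T a v) := by
  apply F.invariant
  refine ⟨⟨fun x => ⟨T a x, ball_T T h0 hadd hcon a x.2⟩,
    fun x => ⟨T (-a) x, ball_T' T h0 hadd hcon a x.2⟩, ?_, ?_⟩, ?_, ?_, ?_, ?_⟩
  · intro x
    exact Subtype.ext (T_neg T h0 hadd a x)
  · intro x
    exact Subtype.ext (T_neg' T h0 hadd a x)
  · intro x
    constructor
    · intro h
      show T a (x : V) = T a v
      rw [h]
    · intro h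
      exact T_inj T h0 hadd a h
  · intro x
    exact (hside a x).symm
  · intro x y
    exact (hcon a x y).symm
  · intro x
    rfl

omit [Fintype Γ] in
theorem total_T [Fintype V] {r : ℕ} (F : LocalCost Q S r) (σ : V → S) (a : Γ) :
    F.total X (fun x => σ (T a x)) = F.total X σ := by
  unfold LocalCost.total
  let e : V ≃ V := ⟨T a, T (-a), T_neg T h0 hadd a, T_neg' T h0 hadd a⟩
  rw [← Equiv.sum_comp e (fun v => F.cost X σ v)]
  exact Finset.sum_congr rfl fun v _ => cost_T T h0 hadd hside hcon F σ a v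

end group

section run

variable {Γ : Type} [AddGroup Γ]

/-- the states in which the translates of the change by the elements of `A` are applied -/
noncomputable def tr (T : Γ → V → V) (A : Finset Γ) (σ σ' : V → S) : V → S := fun x =>
  if h : ∃ a ∈ A, σ' (T (-a) x) ≠ σ x then σ' (T (-h.choose) x) else σ x

/-- the assumptions: a group of automorphisms that moves every vertex far -/
structure Far (X : Game Q V) (T : Γ → V → V) (L : ℕ) : Prop where
  h0 : ∀ x, T 0 x = x
  hadd : ∀ a b x, T (a + b) x = T a (T b x)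
  hside : ∀ a v, X.side (T a v) = X.side v
  hcon : ∀ a u v, X.con (T a u) (T a v) = X.con u v
  far : ∀ a x, T a x ∈ ball X.gr x L → a = 0

variable {X : Game Q V} {T : Γ → V → V} {L : ℕ}

theorem Far.unique (hX : Far X T L) {d : ℕ} (hd : d ≤ L) {σ σ' : V → S}
    (hσ : ∀ a x, σ (T a x) = σ x)
    (hD : ∀ x y, σ' x ≠ σ x → σ' y ≠ σ y → y ∈ ball X.gr x d) {a b : Γ} {x : V}
    (ha : σ' (T (-a) x) ≠ σ x) (hb : σ' (T (-b) x) ≠ σ x) : a = b := by
  have h1 := hD (T (-a) x) (T (-b) x) (by rwa [hσ]) (by rwa [hσ])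
  have h2 : T (-b) x = T (-b + a) (T (-a) x) := by
    rw [← hX.hadd, add_neg_cancel_right]
  rw [h2] at h1
  have h3 := hX.far _ _ (ball_mono h1 hd)
  exact (neg_add_eq_zero.mp h3).symm

theorem Far.tr_eq (hX : Far X T L) {d : ℕ} (hd : d ≤ L) {σ σ' : V → S}
    (hσ : ∀ a x, σ (T a x) = σ x)
    (hD : ∀ x y, σ' x ≠ σ x → σ' y ≠ σ y → y ∈ ball X.gr x d) {A : Finset Γ} {a : Γ} {x : V}
    (ha : a ∈ A) (hax : σ' (T (-a) x) ≠ σ x) : tr T A σ σ' x = σ' (T (-a) x) := by
  have h : ∃ a ∈ A, σ' (T (-a) x) ≠ σ x := ⟨a, ha, hax⟩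
  unfold tr
  rw [dif_pos h]
  rw [hX.unique hd hσ hD h.choose_spec.2 hax]

theorem tr_not {σ σ' : V → S} {A : Finset Γ} {x : V}
    (h : ∀ a ∈ A, σ' (T (-a) x) = σ x) : tr T A σ σ' x = σ x := by
  unfold tr
  rw [dif_neg]
  push Not
  exact h

theorem Far.translates [Fintype V] (hX : Far X T L) {r m t d : ℕ} (F : LocalCost Q S r)
    (hd : d + 2 * r ≤ L)
    {σ σ' : V → S} (hσ : ∀ a x, σ (T a x) = σ x)
    (hD : ∀ x y, σ' x ≠ σ x → σ' y ≠ σ y → y ∈ ball X.gr x d)
    (hstep : Step F m t X σ σ') (A : Finset Γ) :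
    Relation.ReflTransGen (Step F m t X) σ (tr T A σ σ') := by
  have hd' : d ≤ L := by omega
  induction A using Finset.induction_on with
  | empty =>
    have : tr T (∅ : Finset Γ) σ σ' = σ := by
      funext x
      exact tr_not (by simp)
    rw [this]
  | insert a A ha ih =>
    refine ih.tail ?_
    -- the translate by `a`
    let Z : Set V := {x | σ' (T (-a) x) ≠ σ x}
    have hZ : ∀ x, x ∈ Z ↔ σ' (T (-a) x) ≠ σ x := fun x => Iff.rfl
    have e1 : ∀ x, x ∈ Z → tr T (insert a A) σ σ' x = σ' (T (-a) x) := fun x hx =>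
      hX.tr_eq hd' hσ hD (Finset.mem_insert_self _ _) hx
    have e2 : ∀ x, x ∉ Z → tr T (insert a A) σ σ' x = tr T A σ σ' x := by
      intro x hx
      have hx' : σ' (T (-a) x) = σ x := by
        by_contra h
        exact hx h
      by_cases h : ∃ b ∈ A, σ' (T (-b) x) ≠ σ x
      · obtain ⟨b, hb, hbx⟩ := h
        rw [hX.tr_eq hd' hσ hD (Finset.mem_insert_of_mem hb) hbx, hX.tr_eq hd' hσ hD hb hbx]
      · push Not at h
        rw [tr_not h, tr_not]
        intro b hb
        rcases Finset.mem_insert.mp hb with rfl | hb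
        · exact hx'
        · exact h b hb
    have e3 : ∀ x, x ∈ Z → tr T A σ σ' x = σ x := by
      intro x hx
      apply tr_not
      intro b hb
      by_contra h
      have := hX.unique hd' hσ hD hx h
      subst this
      exact ha hb
    have e4 : ∀ x, tr T (insert a A) σ σ' x ≠ σ x → ∃ b ∈ insert a A, σ' (T (-b) x) ≠ σ x := by
      intro x hx
      by_contra h
      push Not at h
      exact hx (tr_not h)
    have hsplit := split_total (X := X) F Z σ (tr T (insert a A) σ σ') (by
      intro x y hx hy hxZ hyZ hxy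
      obtain ⟨b, _, hb⟩ := e4 y hy
      have h1 := hD (T (-a) x) (T (-b) y) (by rw [hσ]; exact hxZ) (by rw [hσ]; exact hb)
      have h2 := ball_T T hX.h0 hX.hadd hX.hcon b h1
      rw [T_neg' T hX.h0 hX.hadd] at h2
      have h3 := ball_trans hxy (ball_symm h2)
      have h4 : T b (T (-a) x) = T (b + -a) x := by rw [← hX.hadd]
      rw [h4] at h3
      have h5 := hX.far _ _ (ball_mono h3 (by omega))
      have h6 : b = a := add_neg_eq_zero.mp h5
      subst h6
      exact hyZ hb)
    have h1 : onA Z σ (tr T (insert a A) σ σ') = fun x => σ' (T (-a) x) := by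
      funext x
      by_cases hx : x ∈ Z
      · rw [onA_mem hx, e1 x hx]
      · rw [onA_not hx]
        by_contra h
        exact hx (Ne.symm h)
    have h2 : onA Z (tr T (insert a A) σ σ') σ = tr T A σ σ' := by
      funext x
      by_cases hx : x ∈ Z
      · rw [onA_mem hx, e3 x hx]
      · rw [onA_not hx, e2 x hx]
    rw [h1, h2, total_T T hX.h0 hX.hadd hX.hside hX.hcon F σ' (-a)] at hsplit
    obtain ⟨⟨C, hC, hCD⟩, hlt⟩ := hstep
    refine ⟨⟨C.image (T a), Finset.card_image_le.trans hC, ?_⟩, by linarith⟩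
    intro x hx
    have hxZ : x ∈ Z := by
      by_contra h
      exact hx (e2 x h)
    obtain ⟨c, hc, hcx⟩ := hCD (T (-a) x) (by rw [hσ]; exact hxZ)
    refine ⟨T a c, Finset.mem_image_of_mem _ hc, ?_⟩
    have := ball_T T hX.h0 hX.hadd hX.hcon a hcx
    rwa [T_neg' T hX.h0 hX.hadd] at this

theorem Far.tr_inv [Fintype Γ] (hX : Far X T L) {d : ℕ} (hd : d ≤ L) {σ σ' : V → S}
    (hσ : ∀ a x, σ (T a x) = σ x)
    (hD : ∀ x y, σ' x ≠ σ x → σ' y ≠ σ y → y ∈ ball X.gr x d) (b : Γ) (x : V) :
    tr T Finset.univ σ σ' (T b x) = tr T Finset.univ σ σ' x := by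
  by_cases h : ∃ a, σ' (T (-a) x) ≠ σ x
  · obtain ⟨a, ha⟩ := h
    rw [hX.tr_eq hd hσ hD (Finset.mem_univ a) ha]
    have h1 : T (-(b + a)) (T b x) = T (-a) x := by
      rw [← hX.hadd]
      congr 1
      rw [neg_add_rev, neg_add_cancel_right]
    rw [hX.tr_eq (a := b + a) hd hσ hD (Finset.mem_univ _) (by rw [h1, hσ]; exact ha), h1]
  · push Not at h
    rw [tr_not (x := x) fun a _ => h a, tr_not, hσ]
    intro a _
    rw [← hX.hadd]
    have h2 := h (-(-a + b))
    rw [neg_neg] at h2
    rw [h2, hσ]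

/-- Local search can be run symmetrically: it ends in a symmetric local optimum. -/
theorem Far.run [Fintype Γ] [Fintype V] [Finite S] {r m t : ℕ} (hX : Far X T L)
    (F : LocalCost Q S r) (hL : m * (2 * t + 2 * r + 1) ≤ L) :
    ∀ σ : V → S, (∀ a x, σ (T a x) = σ x) →
    ∃ σ' : V → S, (∀ a x, σ' (T a x) = σ' x) ∧ Relation.ReflTransGen (Step F m t X) σ σ' ∧
      ∀ σ'', ¬ Step F m t X σ' σ'' := by
  have hwf : WellFounded fun τ τ' : V → S => F.total X τ < F.total X τ' := by
    have : IsTrans (V → S) fun τ τ' => F.total X τ < F.total X τ' :=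
      ⟨fun _ _ _ h h' => h.trans h'⟩
    have : Std.Irrefl fun τ τ' : V → S => F.total X τ < F.total X τ' :=
      ⟨fun _ => lt_irrefl _⟩
    exact Finite.wellFounded_of_trans_of_irrefl _
  have hdec : ∀ σ σ' : V → S, Relation.ReflTransGen (Step F m t X) σ σ' →
      σ = σ' ∨ F.total X σ' < F.total X σ := by
    intro σ σ' h
    induction h with
    | refl => exact Or.inl rfl
    | tail _ h ih =>
      right
      rcases ih with rfl | ih
      · exact h.2
      · exact h.2.trans ih
  intro σ
  induction σ using hwf.induction with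
  | _ σ ih =>
    intro hσ
    by_cases hstuck : ∀ σ', ¬ Step F m t X σ σ'
    · exact ⟨σ, hσ, Relation.ReflTransGen.refl, hstuck⟩
    · push Not at hstuck
      obtain ⟨σ', ⟨C, hC, hD⟩, hlt⟩ := hstuck
      rcases Nat.eq_zero_or_pos m with rfl | hm
      · exfalso
        have h1 : σ' = σ := by
          funext v
          by_contra hne
          obtain ⟨c, hc, _⟩ := hD v hne
          have : C = ∅ := Finset.card_eq_zero.mp (Nat.le_zero.mp hC)
          rw [this] at hc
          exact absurd hc (Finset.notMem_empty c)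
        rw [h1] at hlt
        exact lt_irrefl _ hlt
      obtain ⟨σ'', h1, h2, h3⟩ : ∃ σ'' : V → S,
          (∃ T : Finset V, T.card ≤ m ∧ ∀ v, σ'' v ≠ σ v → ∃ c ∈ T, v ∈ ball X.gr c t) ∧
          (∀ x y, σ'' x ≠ σ x → σ'' y ≠ σ y →
            y ∈ ball X.gr x ((m - 1) * (2 * t + 2 * r + 1) + 2 * t)) ∧
          F.total X σ'' < F.total X σ := by
        by_contra hcon
        push Not at hcon
        have := small_step F σ (fun σ'' a b => hcon σ'' a b) le_rfl C hC σ' hD
        linarith
      have hd : (m - 1) * (2 * t + 2 * r + 1) + 2 * t + 2 * r ≤ L := by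
        refine le_trans ?_ hL
        obtain ⟨m, rfl⟩ : ∃ m', m = m' + 1 := ⟨m - 1, by omega⟩
        rw [Nat.add_sub_cancel]
        ring_nf
        omega
      have hrun := hX.translates F hd hσ h2 ⟨h1, h3⟩ Finset.univ
      have hinv := hX.tr_inv (show (m - 1) * (2 * t + 2 * r + 1) + 2 * t ≤ L by omega) hσ h2
      have hlt' : F.total X (tr T Finset.univ σ σ'') < F.total X σ := by
        rcases hdec _ _ hrun with heq | hlt'
        · exfalso
          have hne : ∃ x, σ'' x ≠ σ x := by
            by_contra hcon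
            push Not at hcon
            rw [funext hcon] at h3
            exact lt_irrefl _ h3
          obtain ⟨x, hx⟩ := hne
          have hx' : σ'' (T (-0) x) ≠ σ x := by rwa [neg_zero, hX.h0]
          have := hX.tr_eq (show (m - 1) * (2 * t + 2 * r + 1) + 2 * t ≤ L by omega) hσ h2
            (Finset.mem_univ 0) hx'
          rw [← heq] at this
          exact hx' this.symm
        · exact hlt'
      obtain ⟨σ3, h4, h5, h6⟩ := ih _ hlt' hinv
      exact ⟨σ3, h4, hrun.trans h5, h6⟩

end run

end Pool.Agent.TH912.LG
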